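import Pool.Agent.Helper403.Fit.Defs

set_option autoImplicit false

namespace Pool.Agent.Helper403.Fit

variable {G H : Type} [Group G] [Group H] [Finite G] [Finite H]

theorem mem_congr (X : GroupClass) (e : G ≃* H) : X.Mem G ↔ X.Mem H :=
  ⟨X.iso e, X.iso e.symm⟩

/-- `A` is a subgroup of `S` normalized by `S`. -/
def NormIn {G : Type} [Group G] (A S : Subgroup G) : Prop :=
  A ≤ S ∧ ∀ s ∈ S, ∀ a ∈ A, s * a * s⁻¹ ∈ A

omit [Finite G] in
theorem NormIn.subgroupOf_normal {A S : Subgroup G} (h : NormIn A S) :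
    (A.subgroupOf S).Normal := by
  constructor
  intro n hn g
  rw [Subgroup.mem_subgroupOf] at hn ⊢
  exact h.2 g g.2 n hn

theorem mem_of_normIn {X : GroupClass} (hX : IsFittingClass X) {A S : Subgroup G}
    (h : NormIn A S) (hS : X.Mem S) : X.Mem A :=
  X.iso (Subgroup.subgroupOfEquivOfLe h.1) (hX.normal S (A.subgroupOf S) h.subgroupOf_normal hS)

theorem mem_top (X : GroupClass) : X.Mem (⊤ : Subgroup G) ↔ X.Mem G :=
  mem_congr X Subgroup.topEquiv

theorem mem_sup_of_normIn {X : GroupClass} (hX : IsFittingClass X) {A B S : Subgroup G}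
    (hA : NormIn A S) (hB : NormIn B S) (hAB : S ≤ A ⊔ B) (h1 : X.Mem A) (h2 : X.Mem B) :
    X.Mem S := by
  have h3 : X.Mem (A.subgroupOf S) := X.iso (Subgroup.subgroupOfEquivOfLe hA.1).symm h1
  have h4 : X.Mem (B.subgroupOf S) := X.iso (Subgroup.subgroupOfEquivOfLe hB.1).symm h2
  have h5 := hX.mul S _ _ hA.subgroupOf_normal hB.subgroupOf_normal h3 h4
  have h6 : A.subgroupOf S ⊔ B.subgroupOf S = ⊤ := by
    rw [← Subgroup.subgroupOf_sup hA.1 hB.1]
    rw [Subgroup.subgroupOf_eq_top]
    exact hAB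
  rw [h6] at h5
  exact (mem_top X).1 h5

theorem mem_of_normal {X : GroupClass} (hX : IsFittingClass X) {A : Subgroup G}
    (h : A.Normal) (hG : X.Mem G) : X.Mem A := hX.normal G A h hG

theorem mem_of_subsingleton {X : GroupClass} (hX : IsFittingClass X) (hne : X.Nonempty)
    (K : Type) [Group K] [Finite K] [Subsingleton K] : X.Mem K := by
  obtain ⟨M, _, _, hM⟩ := hne
  have h := hX.normal M ⊥ inferInstance hM
  refine X.iso ?_ h
  exact
    { toFun := fun _ => 1
      invFun := fun _ => 1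
      left_inv := fun x => Subsingleton.elim _ _
      right_inv := fun x => Subsingleton.elim _ _
      map_mul' := fun x y => by simp }

omit [Finite G] in
theorem mem_map_iff [Finite G] (X : GroupClass) (f : G →* H) (hf : Function.Injective f)
    (A : Subgroup G) : X.Mem (A.map f) ↔ X.Mem A :=
  (mem_congr X (A.equivMapOfInjective f hf)).symm

/-- a sup of finitely many normal members is a member -/
theorem mem_finset_sup {X : GroupClass} (hX : IsFittingClass X) (hne : X.Nonempty) {ι : Type}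
    (s : Finset ι) (A : ι → Subgroup G) (hn : ∀ i ∈ s, (A i).Normal)
    (hm : ∀ i ∈ s, X.Mem (A i)) : (s.sup A).Normal ∧ X.Mem (s.sup A : Subgroup G) := by
  classical
  induction s using Finset.induction_on with
  | empty =>
    rw [Finset.sup_empty]
    exact ⟨inferInstance, mem_of_subsingleton hX hne (⊥ : Subgroup G)⟩
  | insert a s ha ih =>
    rw [Finset.sup_insert]
    obtain ⟨h1, h2⟩ := ih (fun i hi => hn i (Finset.mem_insert_of_mem hi))
      (fun i hi => hm i (Finset.mem_insert_of_mem hi))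
    have h3 := hn a (Finset.mem_insert_self _ _)
    have h4 := hm a (Finset.mem_insert_self _ _)
    exact ⟨Subgroup.sup_normal _ _, hX.mul G _ _ h3 h1 h4 h2⟩

theorem rad_mem {X : GroupClass} (hX : IsFittingClass X) (hne : X.Nonempty) :
    X.Mem (rad X G) := by
  classical
  have hfin : Set.Finite {N : Subgroup G | N.Normal ∧ X.Mem N} := Set.toFinite _
  have h := (mem_finset_sup hX hne hfin.toFinset (fun N : Subgroup G => N) (by
    intro i hi
    exact ((Set.Finite.mem_toFinset _).1 hi).1) (by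
    intro i hi
    exact ((Set.Finite.mem_toFinset _).1 hi).2)).2
  have e : hfin.toFinset.sup (fun N : Subgroup G => N) = rad X G := by
    unfold rad
    apply le_antisymm
    · apply Finset.sup_le
      intro b hb
      exact le_sSup ((Set.Finite.mem_toFinset _).1 hb)
    · apply sSup_le
      intro b hb
      exact Finset.le_sup (f := fun N : Subgroup G => N) ((Set.Finite.mem_toFinset _).2 hb)
  rw [e] at h
  exact h

theorem le_rad {X : GroupClass} {N : Subgroup G} (hN : N.Normal) (h : X.Mem N) :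
    N ≤ rad X G := le_sSup ⟨hN, h⟩

theorem mem_prodGroup {X : GroupClass} (hX : IsFittingClass X) (h1 : X.Mem G) (h2 : X.Mem H) :
    X.Mem (G × H) := by
  have a1 : X.Mem ((⊤ : Subgroup G).map (MonoidHom.inl G H)) :=
    (mem_map_iff X _ (fun a b h => by simpa using h) _).2 ((mem_top X).2 h1)
  have a2 : X.Mem ((⊤ : Subgroup H).map (MonoidHom.inr G H)) :=
    (mem_map_iff X _ (fun a b h => by simpa using h) _).2 ((mem_top X).2 h2)
  rw [← mem_top X]
  refine mem_sup_of_normIn hX (A := (⊤ : Subgroup G).map (MonoidHom.inl G H))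
    (B := (⊤ : Subgroup H).map (MonoidHom.inr G H)) ⟨le_top, ?_⟩ ⟨le_top, ?_⟩ ?_ a1 a2
  · rintro ⟨s1, s2⟩ _ _ ⟨a, _, rfl⟩
    exact ⟨s1 * a * s1⁻¹, trivial, by simp⟩
  · rintro ⟨s1, s2⟩ _ _ ⟨a, _, rfl⟩
    exact ⟨s2 * a * s2⁻¹, trivial, by simp⟩
  · rintro ⟨s1, s2⟩ _
    have e : ((s1, s2) : G × H) = (s1, 1) * (1, s2) := by simp
    rw [e]
    exact Subgroup.mul_mem_sup ⟨s1, trivial, rfl⟩ ⟨s2, trivial, rfl⟩

theorem mem_pi {X : GroupClass} (hX : IsFittingClass X) {ι : Type} [Finite ι]
    (h1 : X.Mem G) : X.Mem (ι → G) := by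
  classical
  have := Fintype.ofFinite ι
  have hne : X.Nonempty := ⟨G, _, _, h1⟩
  have key := (mem_finset_sup (G := ι → G) hX hne Finset.univ
    (fun i => (⊤ : Subgroup G).map (MonoidHom.mulSingle (fun _ : ι => G) i)) (by
      intro i _
      constructor
      rintro _ ⟨a, _, rfl⟩ g
      refine ⟨g i * a * (g i)⁻¹, trivial, ?_⟩
      funext j
      by_cases hj : j = i
      · subst hj
        simp [MonoidHom.mulSingle_apply]
      · simp [MonoidHom.mulSingle_apply, Pi.mulSingle_eq_of_ne hj]) (by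
      intro i _
      exact (mem_map_iff X _ (fun a b h => by
        simpa [MonoidHom.mulSingle_apply] using h) _).2 ((mem_top X).2 h1))).2
  have e : (Finset.univ.sup
      (fun i => (⊤ : Subgroup G).map (MonoidHom.mulSingle (fun _ : ι => G) i)) :
        Subgroup (ι → G)) = ⊤ := by
    rw [eq_top_iff]
    have : (⊤ : Subgroup (ι → G)) = Subgroup.pi Set.univ (fun _ => (⊤ : Subgroup G)) := by
      ext x; simp [Subgroup.mem_pi]
    rw [this, Subgroup.pi_le_iff]
    intro i
    exact Finset.le_sup (f := fun i =>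
      (⊤ : Subgroup G).map (MonoidHom.mulSingle (fun _ : ι => G) i)) (Finset.mem_univ i)
  rw [e] at key
  exact (mem_top X).1 key

end Pool.Agent.Helper403.Fit
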