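import Pool.Agent.Helper403.Fit.Step

set_option autoImplicit false

namespace Pool.Agent.Helper403.Fit

variable {G H : Type} [Group G] [Group H]

theorem Op_idem {p : ℕ} (S : Subgroup G) : Op p S ≤ Op p (Op p S) := by
  conv_lhs => unfold Op
  rw [Subgroup.closure_le]
  rintro g ⟨hg1, hg2⟩
  exact mem_Op (mem_Op hg1 hg2) hg2

theorem conj_pow_mem {N : Subgroup G} {y : G} (h2 : ∀ n ∈ N, y * n * y⁻¹ ∈ N) (k : ℕ) :
    ∀ n ∈ N, y ^ k * n * (y ^ k)⁻¹ ∈ N := by
  induction k with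
  | zero => intro n hn; simpa using hn
  | succ k ih =>
    intro n hn
    have h := h2 _ (ih n hn)
    have e : y ^ (k + 1) * n * (y ^ (k + 1))⁻¹ = y * (y ^ k * n * (y ^ k)⁻¹) * y⁻¹ := by
      rw [pow_succ']
      group
    rw [e]
    exact h

theorem conj_inv_mem [Finite G] {N : Subgroup G} {y : G} (h2 : ∀ n ∈ N, y * n * y⁻¹ ∈ N) :
    ∀ n ∈ N, y⁻¹ * n * y ∈ N := by
  intro n hn
  have h := conj_pow_mem h2 (orderOf y - 1) n hn
  have e : y ^ (orderOf y - 1) = y⁻¹ := by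
    rw [eq_inv_iff_mul_eq_one, ← pow_succ, Nat.sub_add_cancel (orderOf_pos y), pow_orderOf_eq_one]
  rw [e, inv_inv] at h
  exact h

theorem mem_normalizer_of [Finite G] {N : Subgroup G} {y : G}
    (h2 : ∀ n ∈ N, y * n * y⁻¹ ∈ N) : y ∈ Subgroup.normalizer (N : Set G) := by
  rw [Subgroup.mem_normalizer_iff]
  intro n
  refine ⟨h2 n, fun h => ?_⟩
  have := conj_inv_mem h2 _ h
  have e : y⁻¹ * (y * n * y⁻¹) * y = n := by group
  rw [e] at this
  exact this

theorem normal_of_gens [Finite G] {N K : Subgroup G} {y : G}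
    (hT : K ⊔ Subgroup.zpowers y = ⊤) (h1 : ∀ k ∈ K, ∀ n ∈ N, k * n * k⁻¹ ∈ N)
    (h2 : ∀ n ∈ N, y * n * y⁻¹ ∈ N) : N.Normal := by
  rw [← Subgroup.normalizer_eq_top_iff, eq_top_iff, ← hT]
  refine sup_le (fun k hk => mem_normalizer_of (h1 k hk)) ?_
  rw [Subgroup.zpowers_le]
  exact mem_normalizer_of h2

/-- Lemma C -/
theorem lemmaC {p : ℕ} [Finite G] {K N : Subgroup G} {y : G} (hy : PElt p y)
    (hncl : ∀ D : Subgroup G, D.Normal → y ∈ D → D = ⊤)
    (hT : K ⊔ Subgroup.zpowers y = ⊤) (hKp : K ≤ Op p K)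
    (h1 : ∀ k ∈ K, ∀ n ∈ N, k * n * k⁻¹ ∈ N) (h2 : ∀ n ∈ N, y * n * y⁻¹ ∈ N)
    (h3 : ∀ k ∈ K, k * y * k⁻¹ * y⁻¹ ∈ N) : K ≤ N := by
  have hN : N.Normal := normal_of_gens hT h1 h2
  have hD : (N ⊔ Subgroup.zpowers y).Normal := by
    apply normal_of_gens hT
    · intro k hk d hd
      obtain ⟨n, hn, z, hz, rfl⟩ := Subgroup.mem_sup_of_normal_left.1 hd
      obtain ⟨m, rfl⟩ := Subgroup.mem_zpowers_iff.1 hz
      have e : k * (n * y ^ m) * k⁻¹ = (k * n * k⁻¹) * (k * y * k⁻¹) ^ m := by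
        rw [conj_zpow]
        group
      rw [e]
      apply Subgroup.mul_mem
      · exact Subgroup.mem_sup_left (h1 k hk n hn)
      · apply Subgroup.zpow_mem
        have e2 : k * y * k⁻¹ = (k * y * k⁻¹ * y⁻¹) * y := by group
        rw [e2]
        exact Subgroup.mul_mem_sup (h3 k hk) (Subgroup.mem_zpowers y)
    · intro d hd
      have hy' : y ∈ N ⊔ Subgroup.zpowers y := Subgroup.mem_sup_right (Subgroup.mem_zpowers y)
      exact Subgroup.mul_mem _ (Subgroup.mul_mem _ hy' hd) (Subgroup.inv_mem _ hy')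
  have hDt := hncl _ hD (Subgroup.mem_sup_right (Subgroup.mem_zpowers y))
  refine hKp.trans ?_
  unfold Op
  rw [Subgroup.closure_le]
  rintro g ⟨_, hg⟩
  exact mk'_eq_one.1 (eq_one_of_both (pelt_cyc hN hN le_rfl hDt hy g) (hg.map _))

/-- a group which is the normal closure of a `p`-element `y` is `O^p(G)⟨y⟩` -/
theorem cyc_top {p : ℕ} (hp : p.Prime) [Finite G] {y : G}
    (hncl : ∀ D : Subgroup G, D.Normal → y ∈ D → D = ⊤) :
    Op p (⊤ : Subgroup G) ⊔ Subgroup.zpowers y = ⊤ := by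
  have : Fact p.Prime := ⟨hp⟩
  have hK : (Op p (⊤ : Subgroup G)).Normal := Op_normal inferInstance
  set K : Subgroup G := Op p (⊤ : Subgroup G) with hKdef
  have hpg : IsPGroup p (G ⧸ K) := by
    intro x
    obtain ⟨g, rfl⟩ := QuotientGroup.mk'_surjective K x
    apply pelt_of_Op hp (S := (⊤ : Subgroup G)) _ _ (Subgroup.mem_top g)
    rw [QuotientGroup.ker_mk']
  have hnil : Group.IsNilpotent (G ⧸ K) := hpg.isNilpotent
  have hz : Subgroup.zpowers (QuotientGroup.mk' K y) = ⊤ := by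
    by_contra hcon
    obtain ⟨C, hC, hC2⟩ := (eq_top_or_exists_le_coatom
      (Subgroup.zpowers (QuotientGroup.mk' K y))).resolve_left hcon
    have hCn : C.Normal := Subgroup.NormalizerCondition.normal_of_coatom C
      Group.normalizerCondition_of_isNilpotent hC
    have h1 := hncl (C.comap (QuotientGroup.mk' K)) (hCn.comap _)
      (hC2 (Subgroup.mem_zpowers _))
    apply hC.1
    rw [eq_top_iff]
    intro q _
    obtain ⟨g, rfl⟩ := QuotientGroup.mk'_surjective K q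
    have : g ∈ C.comap (QuotientGroup.mk' K) := by rw [h1]; trivial
    exact this
  rw [eq_top_iff]
  intro g _
  have h1 : QuotientGroup.mk' K g ∈ Subgroup.zpowers (QuotientGroup.mk' K y) := by
    rw [hz]; trivial
  obtain ⟨k, hk⟩ := Subgroup.mem_zpowers_iff.1 h1
  have h2 : g * (y ^ k)⁻¹ ∈ K := by
    rw [← mk'_eq_one, map_mul, map_inv, map_zpow, hk, mul_inv_cancel]
  have e : g = (g * (y ^ k)⁻¹) * y ^ k := by group
  rw [e]
  exact Subgroup.mul_mem_sup h2 (Subgroup.zpow_mem_zpowers y k)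

/-- ambient version of `step` -/
theorem stepA {F : GroupClass} (hF : IsFittingClass F)
    (hsol : ∀ (G : Type) [Group G] [Finite G], F.Mem G → Group.IsSolvable G)
    (hsat : IsSaturated F) {p : ℕ} (hp : p.Prime) [Finite G] (E : Subgroup G) (l : G)
    (hE : E.Normal) (hEp : E ≤ Op p E) (hl : PElt p l)
    (hgen : ∀ D : Subgroup G, l ∈ D →
      (∀ t ∈ E ⊔ Subgroup.zpowers l, ∀ d ∈ D, t * d * t⁻¹ ∈ D) → E ≤ D)
    (hR : F.Mem (E ⊔ Subgroup.zpowers (l ^ p) : Subgroup G))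
    (hz : ∃ z ∈ E ⊔ Subgroup.zpowers (l ^ p), z ≠ 1 ∧ PElt p z)
    (h5 : ∀ X : GroupClass, IsFittingClass X →
      X.Mem (OO p (E ⊔ Subgroup.zpowers (l ^ p))) → X.Mem E) :
    F.Mem (E ⊔ Subgroup.zpowers l : Subgroup G) := by
  set T : Subgroup G := E ⊔ Subgroup.zpowers l with hTdef
  have hET : E ≤ T := le_sup_left
  have hlT : l ∈ T := Subgroup.mem_sup_right (Subgroup.mem_zpowers l)
  have hinj := T.subtype_injective
  have hEm : (E.subgroupOf T).map T.subtype = E := Subgroup.map_subgroupOf_eq_of_le hET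
  have hlm : (Subgroup.zpowers (⟨l, hlT⟩ : T)).map T.subtype = Subgroup.zpowers l := by
    rw [MonoidHom.map_zpowers]
    rfl
  have hlpm : (Subgroup.zpowers ((⟨l, hlT⟩ : T) ^ p)).map T.subtype =
      Subgroup.zpowers (l ^ p) := by
    rw [MonoidHom.map_zpowers]
    rfl
  have hRm : (E.subgroupOf T ⊔ Subgroup.zpowers ((⟨l, hlT⟩ : T) ^ p)).map T.subtype =
      E ⊔ Subgroup.zpowers (l ^ p) := by
    rw [Subgroup.map_sup, hEm, hlpm]
  have hTm : (E.subgroupOf T ⊔ Subgroup.zpowers (⟨l, hlT⟩ : T)).map T.subtype = T := by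
    rw [Subgroup.map_sup, hEm, hlm]
  have htop : (⊤ : Subgroup T).map T.subtype = T := by
    rw [← MonoidHom.range_eq_map, Subgroup.range_subtype]
  refine step hF hsol hsat hp (E.subgroupOf T) ⟨l, hlT⟩ ?_ ?_ ?_ ?_ ?_ ?_ ?_ ?_
  · exact hE.comap _
  · rw [← Subgroup.map_le_map_iff_of_injective hinj, ← Op_map T.subtype hinj, hEm]
    exact hEp
  · exact PElt.of_map T.subtype hinj hl
  · apply Subgroup.map_injective hinj
    rw [hTm, htop]
  · intro D hD hlD
    have h1 : E ≤ D.map T.subtype := by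
      apply hgen
      · exact ⟨_, hlD, rfl⟩
      · rintro t ht _ ⟨d, hd, rfl⟩
        exact ⟨⟨t, ht⟩ * d * ⟨t, ht⟩⁻¹, hD.conj_mem d hd _, by simp⟩
    apply Subgroup.map_injective hinj
    rw [htop]
    apply le_antisymm
    · exact Subgroup.map_subtype_le D
    · refine sup_le h1 ?_
      rw [Subgroup.zpowers_le]
      exact ⟨_, hlD, rfl⟩
  · rw [← mem_map_iff F T.subtype hinj, mem_congr_sub F hRm]
    exact hR
  · obtain ⟨z, hz1, hz2, hz3⟩ := hz
    rw [← hRm] at hz1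
    obtain ⟨z', hz', rfl⟩ := hz1
    refine ⟨z', hz', ?_, PElt.of_map T.subtype hinj hz3⟩
    rintro rfl
    exact hz2 (map_one _)
  · intro X hX hm
    rw [← mem_map_iff X T.subtype hinj, mem_congr_sub X hEm]
    apply h5 X hX
    rw [← mem_map_iff X T.subtype hinj,
      mem_congr_sub X (by rw [← OO_map T.subtype hinj, hRm])] at hm
    exact hm

/-- the chain lemma -/
theorem chain {F : GroupClass} (hF : IsFittingClass F)
    (hsol : ∀ (G : Type) [Group G] [Finite G], F.Mem G → Group.IsSolvable G)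
    (hsat : IsSaturated F) {p : ℕ} (hp : p.Prime) [Finite G] (E : Subgroup G)
    (hE : E.Normal) (hEp : E ≤ Op p E) (b : ℕ) : ∀ (h : G), PElt p h → h ^ (p ^ b) ≠ 1 →
      E ≤ Subgroup.closure {g | ∃ e ∈ E, g = e * h ^ (p ^ b) * e⁻¹} →
      F.Mem (E ⊔ Subgroup.zpowers (h ^ (p ^ b)) : Subgroup G) →
      F.Mem (E ⊔ Subgroup.zpowers h : Subgroup G) := by
  induction b with
  | zero =>
    intro h _ _ _ h1
    rw [mem_congr_sub F (show E ⊔ Subgroup.zpowers (h ^ (p ^ 0)) = E ⊔ Subgroup.zpowers h by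
      rw [pow_zero, pow_one])] at h1
    exact h1
  | succ b ih =>
    intro h hh hne hgen h1
    have e : (h ^ p) ^ (p ^ b) = h ^ (p ^ (b + 1)) := by rw [← pow_mul, pow_succ']
    have hR : F.Mem (E ⊔ Subgroup.zpowers (h ^ p) : Subgroup G) := by
      apply ih (h ^ p) (hh.pow p)
      · rw [e]; exact hne
      · rw [e]; exact hgen
      · rw [mem_congr_sub F (show E ⊔ Subgroup.zpowers ((h ^ p) ^ (p ^ b)) =
          E ⊔ Subgroup.zpowers (h ^ (p ^ (b + 1))) by rw [e])]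
        exact h1
    have hzR : h ^ (p ^ (b + 1)) ∈ E ⊔ Subgroup.zpowers (h ^ p) := by
      rw [← e]
      exact Subgroup.mem_sup_right (Subgroup.npow_mem_zpowers _ _)
    refine stepA hF hsol hsat hp E h hE hEp hh ?_ hR ⟨_, hzR, hne, hh.pow _⟩ ?_
    · intro D hD hn
      refine hgen.trans ?_
      rw [Subgroup.closure_le]
      rintro _ ⟨e', he', rfl⟩
      exact hn e' (Subgroup.mem_sup_left he') _ (D.pow_mem hD _)
    · intro X hX hm
      have h2 : E ≤ Opp p (E ⊔ Subgroup.zpowers (h ^ p)) := by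
        refine hgen.trans ?_
        rw [Subgroup.closure_le]
        rintro _ ⟨e', he', rfl⟩
        refine mem_Opp ?_ ((hh.pow _).conj _)
        exact Subgroup.mul_mem _ (Subgroup.mul_mem _ (Subgroup.mem_sup_left he') hzR)
          (Subgroup.inv_mem _ (Subgroup.mem_sup_left he'))
      have h3 : E ≤ OO p (E ⊔ Subgroup.zpowers (h ^ p)) := hEp.trans (Op_mono h2)
      exact mem_of_normIn hX (normIn_of_normal hE h3) hm

/-- the three cases -/
theorem trichotomy (G : Type) [Group G] [Finite G] : Subsingleton G ∨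
    (∃ N₁ N₂ : Subgroup G, N₁.Normal ∧ N₂.Normal ∧ N₁ ≠ ⊤ ∧ N₂ ≠ ⊤ ∧ N₁ ⊔ N₂ = ⊤) ∨
    (∃ p : ℕ, p.Prime ∧ ∃ x : G, x ≠ 1 ∧ PElt p x ∧
      (∀ D : Subgroup G, D.Normal → x ∈ D → D = ⊤) ∧
      ∃ R : Subgroup G, R.Normal ∧ R ≠ ⊤ ∧ ∀ D : Subgroup G, D.Normal → D ≠ ⊤ → D ≤ R) := by
  classical
  rcases subsingleton_or_nontrivial G with hs | hnt
  · exact Or.inl hs
  right
  by_cases hcase : ∃ N₁ N₂ : Subgroup G,
    N₁.Normal ∧ N₂.Normal ∧ N₁ ≠ ⊤ ∧ N₂ ≠ ⊤ ∧ N₁ ⊔ N₂ = ⊤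
  · exact Or.inl hcase
  right
  push Not at hcase
  have key : ∀ s : Finset (Subgroup G), (∀ N ∈ s, N.Normal ∧ N ≠ ⊤) →
      (s.sup id).Normal ∧ s.sup id ≠ ⊤ := by
    intro s
    induction s using Finset.induction_on with
    | empty =>
      intro _
      rw [Finset.sup_empty]
      exact ⟨inferInstance, bot_ne_top⟩
    | insert a s ha ih =>
      intro h
      rw [Finset.sup_insert]
      obtain ⟨h1, h2⟩ := ih fun N hN => h N (Finset.mem_insert_of_mem hN)
      obtain ⟨h3, h4⟩ := h a (Finset.mem_insert_self _ _)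
      exact ⟨Subgroup.sup_normal a (s.sup id), hcase a _ h3 h1 h4 h2⟩
  have hfin : Set.Finite {N : Subgroup G | N.Normal ∧ N ≠ ⊤} := Set.toFinite _
  obtain ⟨hR1, hR2⟩ := key hfin.toFinset (fun N hN => (Set.Finite.mem_toFinset hfin).1 hN)
  set R := hfin.toFinset.sup id with hR
  have hR3 : ∀ D : Subgroup G, D.Normal → D ≠ ⊤ → D ≤ R := by
    intro D hD hDt
    exact Finset.le_sup (f := id) ((Set.Finite.mem_toFinset hfin).2 ⟨hD, hDt⟩)
  have hx : ∀ n : ℕ, ∀ x : G, orderOf x = n → x ∉ R → ∃ p : ℕ, p.Prime ∧ ∃ x : G,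
      PElt p x ∧ x ∉ R := by
    intro n
    induction n using Nat.strong_induction_on with
    | _ n ih =>
      intro x hn hxR
      have hx1 : orderOf x ≠ 1 := by
        intro h
        rw [orderOf_eq_one_iff] at h
        rw [h] at hxR
        exact hxR R.one_mem
      set q := (orderOf x).minFac with hq
      have hqp : q.Prime := Nat.minFac_prime hx1
      obtain ⟨a, b, hab, ha, hb, ha', hb'⟩ := decomp hqp x
      by_cases haR : a ∈ R
      · have hbR : b ∉ R := by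
          intro h
          apply hxR
          rw [hab]
          exact R.mul_mem haR h
        have h1 : orderOf b ∣ orderOf x := orderOf_dvd_of_mem_zpowers hb
        have h2 : orderOf b < orderOf x := by
          apply lt_of_le_of_ne (Nat.le_of_dvd (orderOf_pos x) h1)
          intro h3
          obtain ⟨m, hm, hm2⟩ := hb'
          have h4 : q ∣ m := by
            have : orderOf b ∣ m := orderOf_dvd_of_pow_eq_one hm2
            rw [h3] at this
            exact (Nat.minFac_dvd _).trans this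
          exact hqp.one_lt.ne' (Nat.Coprime.eq_one_of_dvd hm.symm h4)
        rw [hn] at h2
        exact ih _ h2 b rfl hbR
      · exact ⟨q, hqp, a, ha', haR⟩
  obtain ⟨x0, hx0⟩ : ∃ x0 : G, x0 ∉ R := by
    by_contra hcon
    push Not at hcon
    exact hR2 (eq_top_iff.2 fun x _ => hcon x)
  obtain ⟨p, hp, x, hxp, hxR⟩ := hx _ x0 rfl hx0
  refine ⟨p, hp, x, ?_, hxp, ?_, R, hR1, hR2, hR3⟩
  · rintro rfl
    exact hxR R.one_mem
  · intro D hD hxD
    by_contra hDt
    exact hxR (hR3 D hD hDt hxD)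

end Pool.Agent.Helper403.Fit
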