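import Mathlib

set_option autoImplicit false

namespace Pool.Agent.Helper403.Fit

/-- A class of finite groups: a property of finite groups which is invariant under
isomorphism. -/
@[ext]
structure GroupClass : Type 1 where
  Mem : (G : Type) → [Group G] → [Finite G] → Prop
  iso : ∀ {G H : Type} [Group G] [Finite G] [Group H] [Finite H], (G ≃* H) → Mem G → Mem H

/-- The class contains some group. -/
def GroupClass.Nonempty (X : GroupClass) : Prop :=
  ∃ (G : Type) (_ : Group G) (_ : Finite G), X.Mem G

/-- A Fitting class: closed under normal subgroups and under products of normal subgroups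
(the empty class is allowed). -/
structure IsFittingClass (X : GroupClass) : Prop where
  normal : ∀ (G : Type) [Group G] [Finite G] (N : Subgroup G), N.Normal → X.Mem G → X.Mem N
  mul : ∀ (G : Type) [Group G] [Finite G] (N₁ N₂ : Subgroup G), N₁.Normal → N₂.Normal →
    X.Mem N₁ → X.Mem N₂ → X.Mem (N₁ ⊔ N₂ : Subgroup G)

/-- The subgroup generated by all normal subgroups of `G` belonging to the class `X`. For a
nonempty Fitting class it is the largest normal `X`-subgroup of `G` (see `rad_mem`). -/
def rad (X : GroupClass) (G : Type) [Group G] [Finite G] : Subgroup G :=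
  sSup {N | N.Normal ∧ X.Mem N}

instance rad_normal (X : GroupClass) (G : Type) [Group G] [Finite G] : (rad X G).Normal := by
  unfold rad
  rw [sSup_eq_iSup]
  constructor
  intro n hn g
  have hall : ∀ N ∈ {N : Subgroup G | N.Normal ∧ X.Mem N}, N ≤
      (⨆ a ∈ {N : Subgroup G | N.Normal ∧ X.Mem N}, a).comap (MulAut.conj g).toMonoidHom := by
    intro N hN x hx
    have h1 : N ≤ ⨆ a ∈ {N : Subgroup G | N.Normal ∧ X.Mem N}, a := le_iSup₂_of_le N hN le_rfl
    exact h1 (hN.1.conj_mem x hx g)
  have h2 : (⨆ a ∈ {N : Subgroup G | N.Normal ∧ X.Mem N}, a) ≤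
      (⨆ a ∈ {N : Subgroup G | N.Normal ∧ X.Mem N}, a).comap (MulAut.conj g).toMonoidHom :=
    iSup₂_le hall
  exact h2 hn

theorem rad_map_iso (X : GroupClass) {G H : Type} [Group G] [Finite G] [Group H] [Finite H]
    (e : G ≃* H) : (rad X G).map e.toMonoidHom = rad X H := by
  have key : ∀ {G H : Type} [Group G] [Finite G] [Group H] [Finite H] (e : G ≃* H),
      (rad X G).map e.toMonoidHom ≤ rad X H := by
    intro G H _ _ _ _ e
    rw [Subgroup.map_le_iff_le_comap]
    unfold rad
    apply sSup_le
    intro N hN
    rw [← Subgroup.map_le_iff_le_comap]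
    apply le_sSup
    refine ⟨hN.1.map _ e.surjective, ?_⟩
    exact X.iso (N.equivMapOfInjective e.toMonoidHom e.injective) hN.2
  apply le_antisymm (key e)
  intro x hx
  have h := key e.symm (Subgroup.mem_map_of_mem _ hx)
  exact ⟨e.symm x, h, by simp⟩

/-- The product `X Y` of a Fitting class `X` and a class `Y`: all `G` with `G / G_X` in `Y`
(empty if `X` is empty). -/
def prod (X Y : GroupClass) : GroupClass where
  Mem G _ _ := X.Nonempty ∧ Y.Mem (G ⧸ rad X G)
  iso := by
    rintro G H _ _ _ _ e ⟨hne, h⟩
    exact ⟨hne, Y.iso (QuotientGroup.congr (rad X G) (rad X H) e (rad_map_iso X e)) h⟩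

/-- The class of all finite `p`-groups. -/
def pGroups (p : ℕ) : GroupClass where
  Mem G _ _ := IsPGroup p G
  iso := fun e h => h.of_equiv e

/-- The class of all finite groups of order not divisible by `p`. -/
def pPrimeGroups (p : ℕ) : GroupClass where
  Mem G _ _ := ¬ p ∣ Nat.card G
  iso := fun e h => by rwa [← Nat.card_congr e.toEquiv]

/-- Local Fitting classes (in the sense of Hartley): there is a map `h` from the primes to
Fitting classes such that, with `π = {p | h p ≠ ∅}`, the members of `F` are the groups `G`
all of whose prime divisors lie in `π` and which belong to `h(p) N_p E_{p'}` for all `p` in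
`π`. -/
def IsLocal (F : GroupClass) : Prop :=
  IsFittingClass F ∧ ∃ h : Nat.Primes → GroupClass, (∀ p, IsFittingClass (h p)) ∧
    ∀ (G : Type) [Group G] [Finite G], F.Mem G ↔
      (∀ p : Nat.Primes, (p : ℕ) ∣ Nat.card G → (h p).Nonempty) ∧
      ∀ p : Nat.Primes, (h p).Nonempty →
        (prod (h p) (prod (pGroups p) (pPrimeGroups p))).Mem G

/-- `lFit M`: the intersection of all local Fitting classes containing the group `M`. -/
def lFit (M : Type) [Group M] [Finite M] : GroupClass where
  Mem G _ _ := ∀ L : GroupClass, IsLocal L → L.Mem M → L.Mem G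
  iso := fun e h L hL hM => L.iso e (h L hL hM)

/-- The normal subgroups `N` of `G` such that `lFit (N ∩ M) = lFit M` for every subnormal
subgroup `M` of `G`. -/
def PsiSet (G : Type) [Group G] [Finite G] : Set (Subgroup G) :=
  {N | N.Normal ∧ ∀ M : Subgroup G, M.IsSubnormal → lFit ↥(N ⊓ M) = lFit ↥M}

/-- `Ψ(G)`: the smallest member of `PsiSet G` (it is a member of it, see `psi_isLeast`). -/
def Psi (G : Type) [Group G] [Finite G] : Subgroup G := sInf (PsiSet G)

/-- Saturated classes: if `Ψ(G)` lies in the class then so does `G`. -/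
def IsSaturated (F : GroupClass) : Prop :=
  ∀ (G : Type) [Group G] [Finite G], F.Mem (Psi G) → F.Mem G

end Pool.Agent.Helper403.Fit
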