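import Pool.Agent.Helper403.Fit.Wreath

set_option autoImplicit false

namespace Pool.Agent.Helper403.Fit

variable {G H : Type} [Group G] [Group H]

theorem mem_prodSub [Finite G] [Finite H] {X : GroupClass} (hX : IsFittingClass X)
    {A : Subgroup G} {B : Subgroup H} (h1 : X.Mem A) (h2 : X.Mem B) : X.Mem (A.prod B) :=
  X.iso (Subgroup.prodEquiv A B).symm (mem_prodGroup hX h1 h2)

theorem inl_inj : Function.Injective (MonoidHom.inl G H) := fun a b h => by simpa using h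

theorem inr_inj : Function.Injective (MonoidHom.inr G H) := fun a b h => by simpa using h

theorem prod_eq_sup (A : Subgroup G) (B : Subgroup H) :
    A.prod B = A.map (MonoidHom.inl G H) ⊔ B.map (MonoidHom.inr G H) := by
  apply le_antisymm
  · rintro ⟨a, b⟩ ⟨ha, hb⟩
    have e : ((a, b) : G × H) = (a, 1) * (1, b) := by simp
    rw [e]
    exact Subgroup.mul_mem_sup ⟨a, ha, rfl⟩ ⟨b, hb, rfl⟩
  · refine sup_le ?_ ?_
    · rintro _ ⟨a, ha, rfl⟩
      exact ⟨ha, B.one_mem⟩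
    · rintro _ ⟨b, hb, rfl⟩
      exact ⟨A.one_mem, hb⟩

theorem prod_le_Op {p : ℕ} {A : Subgroup G} {B : Subgroup H} (hA : A ≤ Op p A)
    (hB : B ≤ Op p B) : A.prod B ≤ Op p (A.prod B) := by
  conv_lhs => rw [prod_eq_sup]
  refine sup_le ?_ ?_
  · refine (Subgroup.map_mono hA).trans ?_
    rw [← Op_map _ inl_inj]
    apply Op_mono
    rw [prod_eq_sup]
    exact le_sup_left
  · refine (Subgroup.map_mono hB).trans ?_
    rw [← Op_map _ inr_inj]
    apply Op_mono
    rw [prod_eq_sup]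
    exact le_sup_right

/-- normality of cyclic extensions -/
theorem normIn_cyc {E S : Subgroup G} {l : G} (hE : E.Normal)
    (hc : ∀ v ∈ S, v * l * v⁻¹ * l⁻¹ ∈ E) (j : ℕ)
    (hS : E ⊔ Subgroup.zpowers (l ^ j) ≤ S) : NormIn (E ⊔ Subgroup.zpowers (l ^ j)) S := by
  refine ⟨hS, ?_⟩
  intro s hs r hr
  obtain ⟨e, he, z, hz, rfl⟩ := Subgroup.mem_sup_of_normal_left.1 hr
  obtain ⟨m, rfl⟩ := Subgroup.mem_zpowers_iff.1 hz
  have h1 : s * (e * (l ^ j) ^ m) * s⁻¹ * ((l ^ j) ^ m)⁻¹ ∈ E := by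
    rw [← mk'_eq_one]
    have h2 := mk'_eq_one.2 he
    have h3 := mk'_eq_one.2 (hc s hs)
    simp only [map_mul, map_inv, map_zpow, map_pow] at h3 ⊢
    rw [h2, one_mul]
    have h4 : QuotientGroup.mk' E s * QuotientGroup.mk' E l * (QuotientGroup.mk' E s)⁻¹ =
        QuotientGroup.mk' E l := mul_inv_eq_one.1 h3
    have h5 : QuotientGroup.mk' E s * ((QuotientGroup.mk' E l) ^ j) ^ m *
        (QuotientGroup.mk' E s)⁻¹ = ((QuotientGroup.mk' E l) ^ j) ^ m := by
      rw [← conj_zpow, ← conj_pow, h4]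
    rw [h5, mul_inv_cancel]
  have e2 : s * (e * (l ^ j) ^ m) * s⁻¹ =
      (s * (e * (l ^ j) ^ m) * s⁻¹ * ((l ^ j) ^ m)⁻¹) * (l ^ j) ^ m := by group
  rw [e2]
  exact Subgroup.mul_mem_sup h1 (Subgroup.zpow_mem_zpowers _ _)

/-- commutators inside cyclic extensions -/
theorem comm_mem_cyc' {E : Subgroup G} {l : G} (hE : E.Normal) {s t : G}
    (hs : s ∈ E ⊔ Subgroup.zpowers l) (ht : t ∈ E ⊔ Subgroup.zpowers l) :
    t * s * t⁻¹ * s⁻¹ ∈ E := by
  rw [← mk'_eq_one]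
  obtain ⟨e, he, z, hz, rfl⟩ := Subgroup.mem_sup_of_normal_left.1 hs
  obtain ⟨k, rfl⟩ := Subgroup.mem_zpowers_iff.1 hz
  obtain ⟨e', he', z', hz', rfl⟩ := Subgroup.mem_sup_of_normal_left.1 ht
  obtain ⟨k', rfl⟩ := Subgroup.mem_zpowers_iff.1 hz'
  have h1 := mk'_eq_one.2 he
  have h2 := mk'_eq_one.2 he'
  simp only [map_mul, map_zpow, map_inv, h1, h2, one_mul]
  group

/-- generation in the right factor -/
theorem genRight {p : ℕ} [Finite G] {K : Subgroup G} {x : G} {h : H} (hx : PElt p x)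
    (hncl : ∀ D : Subgroup G, D.Normal → x ∈ D → D = ⊤)
    (hT : K ⊔ Subgroup.zpowers x = ⊤) (hKp : K ≤ Op p K) (D : Subgroup (H × G))
    (hD : (h, x) ∈ D) (hK : ∀ k ∈ K, ∀ d ∈ D, ((1, k) : H × G) * d * ((1, k) : H × G)⁻¹ ∈ D) :
    K ≤ D.comap (MonoidHom.inr H G) := by
  apply lemmaC hx hncl hT hKp
  · intro k hk n hn
    have := hK k hk _ hn
    simpa using this
  · intro n hn
    have := D.mul_mem (D.mul_mem hD hn) (D.inv_mem hD)
    simpa using this
  · intro k hk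
    have := D.mul_mem (hK k hk _ hD) (D.inv_mem hD)
    simpa using this

/-- generation in the left factor -/
theorem genLeft {p : ℕ} [Finite G] {K : Subgroup G} {x : G} {h : H} (hx : PElt p x)
    (hncl : ∀ D : Subgroup G, D.Normal → x ∈ D → D = ⊤)
    (hT : K ⊔ Subgroup.zpowers x = ⊤) (hKp : K ≤ Op p K) (D : Subgroup (G × H))
    (hD : (x, h) ∈ D) (hK : ∀ k ∈ K, ∀ d ∈ D, ((k, 1) : G × H) * d * ((k, 1) : G × H)⁻¹ ∈ D) :
    K ≤ D.comap (MonoidHom.inl G H) := by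
  apply lemmaC hx hncl hT hKp
  · intro k hk n hn
    have := hK k hk _ hn
    simpa using this
  · intro n hn
    have := D.mul_mem (D.mul_mem hD hn) (D.inv_mem hD)
    simpa using this
  · intro k hk
    have := D.mul_mem (hK k hk _ hD) (D.inv_mem hD)
    simpa using this

/-- The lifting lemma. -/
theorem lift {F : GroupClass} (hF : IsFittingClass F)
    (hsol : ∀ (G : Type) [Group G] [Finite G], F.Mem G → Group.IsSolvable G)
    (hsat : IsSaturated F) {p : ℕ} (hp : p.Prime) [Finite G] {x : G}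
    (hx : PElt p x) (hncl : ∀ D : Subgroup G, D.Normal → x ∈ D → D = ⊤)
    (hR : F.Mem (Op p (⊤ : Subgroup G) ⊔ Subgroup.zpowers (x ^ p) : Subgroup G))
    {X : Type} [Group X] [Finite X] {y : X} (hFX : F.Mem X)
    (hy : PElt p y) (hy1 : y ≠ 1) (hncly : ∀ D : Subgroup X, D.Normal → y ∈ D → D = ⊤)
    (hK : (FitCl (Op p (⊤ : Subgroup X))).Mem (Op p (⊤ : Subgroup G))) : F.Mem G := by
  obtain ⟨a, ha⟩ := hx
  have hx : PElt p x := ⟨a, ha⟩
  set b := a + 1 with hb
  have hxb : x ^ (p ^ b) = 1 := by rw [hb, pow_succ, pow_mul, ha, one_pow]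
  obtain ⟨W, _, _, E, h, hEn, hEp, hhp, hne, hgen, hH, hY⟩ :=
    root hF hsol hsat hp hFX hy hy1 hncly b
  set K : Subgroup G := Op p (⊤ : Subgroup G) with hKdef
  have hKn : K.Normal := Op_normal inferInstance
  have hKp : K ≤ Op p K := Op_idem _
  have hT : K ⊔ Subgroup.zpowers x = ⊤ := cyc_top hp hncl
  -- the product group
  set EL : Subgroup (W × G) := E.prod K with hEL
  have hELn : EL.Normal := Subgroup.prod_normal E K
  set l : W × G := (h, x) with hl
  have hlp : PElt p l := by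
    obtain ⟨c, hc⟩ := hhp
    refine ⟨c + a, ?_⟩
    rw [hl, Prod.pow_mk, pow_add, pow_mul, hc, one_pow, mul_comm, pow_mul, ha, one_pow]
    rfl
  have hlb : l ^ (p ^ b) = (h ^ (p ^ b), 1) := by rw [hl, Prod.pow_mk, hxb]
  have hlpp : l ^ (p ^ b) = (l ^ p) ^ (p ^ a) := by rw [← pow_mul, hb, pow_succ']
  -- commutators
  have hcomm : ∀ v ∈ (E ⊔ Subgroup.zpowers h).prod (⊤ : Subgroup G),
      v * l * v⁻¹ * l⁻¹ ∈ EL := by
    rintro ⟨v1, v2⟩ ⟨hv1, _⟩
    have c1 : v1 * h * v1⁻¹ * h⁻¹ ∈ E :=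
      comm_mem_cyc' hEn (Subgroup.mem_sup_right (Subgroup.mem_zpowers h)) hv1
    have c2 : v2 * x * v2⁻¹ * x⁻¹ ∈ K := comm_mem_cyc hKn hT x v2
    exact ⟨c1, c2⟩
  have hEH : ∀ j : ℕ, EL ⊔ Subgroup.zpowers (l ^ j) ≤
      (E ⊔ Subgroup.zpowers (h ^ j)).prod (K ⊔ Subgroup.zpowers (x ^ j)) := by
    intro j
    refine sup_le ?_ ?_
    · exact Subgroup.prod_mono le_sup_left le_sup_left
    · rw [Subgroup.zpowers_le]
      exact ⟨Subgroup.mem_sup_right (Subgroup.mem_zpowers _),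
        Subgroup.mem_sup_right (Subgroup.mem_zpowers _)⟩
  have hHp : F.Mem (E ⊔ Subgroup.zpowers (h ^ p) : Subgroup W) := by
    refine mem_of_normIn hF (S := E ⊔ Subgroup.zpowers h) ?_ hH
    apply normIn_cyc hEn
    · intro v hv
      exact comm_mem_cyc' hEn (Subgroup.mem_sup_right (Subgroup.mem_zpowers h)) hv
    · refine sup_le_sup le_rfl ?_
      rw [Subgroup.zpowers_le]
      exact Subgroup.npow_mem_zpowers _ _
  have hRL : F.Mem (EL ⊔ Subgroup.zpowers (l ^ p) : Subgroup (W × G)) := by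
    refine mem_of_normIn hF
      (S := (E ⊔ Subgroup.zpowers (h ^ p)).prod (K ⊔ Subgroup.zpowers (x ^ p))) ?_
      (mem_prodSub hF hHp hR)
    apply normIn_cyc hELn
    · intro v hv
      apply hcomm
      refine ⟨?_, trivial⟩
      refine (sup_le_sup le_rfl ?_ : E ⊔ Subgroup.zpowers (h ^ p) ≤
        E ⊔ Subgroup.zpowers h) hv.1
      rw [Subgroup.zpowers_le]
      exact Subgroup.npow_mem_zpowers _ _
    · exact hEH p
  have hzR : l ^ (p ^ b) ∈ EL ⊔ Subgroup.zpowers (l ^ p) := by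
    rw [hlpp]
    exact Subgroup.mem_sup_right (Subgroup.npow_mem_zpowers _ _)
  have hinl : ∀ e ∈ E, ((e, 1) : W × G) ∈ EL := fun e he => ⟨he, K.one_mem⟩
  have hTL : F.Mem (EL ⊔ Subgroup.zpowers l : Subgroup (W × G)) := by
    refine stepA hF hsol hsat hp EL l hELn (prod_le_Op hEp hKp) hlp ?_ hRL
      ⟨_, hzR, ?_, hlp.pow _⟩ ?_
    · intro D hD hn
      rw [hEL, prod_eq_sup]
      refine sup_le ?_ ?_
      · rw [Subgroup.map_le_iff_le_comap]
        refine hgen.trans ?_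
        rw [Subgroup.closure_le]
        rintro _ ⟨e, he, rfl⟩
        have h1 := hn (e, 1) (Subgroup.mem_sup_left (hinl e he)) _ (D.pow_mem hD (p ^ b))
        rw [hlb] at h1
        simpa using h1
      · rw [Subgroup.map_le_iff_le_comap]
        apply genRight hx hncl hT hKp D hD
        intro k hk d hd
        exact hn (1, k) (Subgroup.mem_sup_left ⟨E.one_mem, hk⟩) d hd
    · rw [hlb]
      intro hcon
      exact hne (congrArg Prod.fst hcon)
    · intro Y hYf hm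
      have h1 : E.map (MonoidHom.inl W G) ≤ Opp p (EL ⊔ Subgroup.zpowers (l ^ p)) := by
        rw [Subgroup.map_le_iff_le_comap]
        refine hgen.trans ?_
        rw [Subgroup.closure_le]
        rintro _ ⟨e, he, rfl⟩
        have h2 : ((e, 1) : W × G) * l ^ (p ^ b) * ((e, 1) : W × G)⁻¹ ∈
            Opp p (EL ⊔ Subgroup.zpowers (l ^ p)) := by
          refine mem_Opp ?_ ((hlp.pow _).conj _)
          exact Subgroup.mul_mem _ (Subgroup.mul_mem _ (Subgroup.mem_sup_left (hinl e he)) hzR)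
            (Subgroup.inv_mem _ (Subgroup.mem_sup_left (hinl e he)))
        rw [hlb] at h2
        simpa using h2
      have h3 : E.map (MonoidHom.inl W G) ≤ OO p (EL ⊔ Subgroup.zpowers (l ^ p)) := by
        refine (Subgroup.map_mono hEp).trans ?_
        rw [← Op_map _ inl_inj]
        exact Op_mono h1
      have h4 : Y.Mem (E.map (MonoidHom.inl W G)) := by
        refine mem_of_normIn hYf ⟨h3, ?_⟩ hm
        rintro ⟨s1, s2⟩ _ _ ⟨e, he, rfl⟩
        exact ⟨s1 * e * s1⁻¹, hEn.conj_mem e he s1, by simp⟩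
      rw [mem_map_iff Y _ inl_inj] at h4
      exact mem_prodSub hYf h4 (hK Y hYf (hY Y hYf h4))
  -- final step
  have hB : F.Mem ((E ⊔ Subgroup.zpowers h).prod (K ⊔ Subgroup.zpowers (x ^ p)) :
      Subgroup (W × G)) := mem_prodSub hF hH hR
  have hS : F.Mem ((E ⊔ Subgroup.zpowers h).prod (⊤ : Subgroup G) : Subgroup (W × G)) := by
    refine mem_sup_of_normIn hF (A := EL ⊔ Subgroup.zpowers (l ^ 1))
      (B := (E ⊔ Subgroup.zpowers h).prod (K ⊔ Subgroup.zpowers (x ^ p))) ?_ ?_ ?_ ?_ hB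
    · apply normIn_cyc hELn hcomm
      refine (hEH 1).trans ?_
      rw [pow_one, pow_one]
      exact Subgroup.prod_mono le_rfl le_top
    · refine ⟨Subgroup.prod_mono le_rfl le_top, ?_⟩
      rintro ⟨s1, s2⟩ ⟨hs1, _⟩ ⟨a1, a2⟩ ⟨ha1, ha2⟩
      refine ⟨?_, ?_⟩
      · exact Subgroup.mul_mem _ (Subgroup.mul_mem _ hs1 ha1) (Subgroup.inv_mem _ hs1)
      · have : (K ⊔ Subgroup.zpowers (x ^ p)).Normal := normal_of_ge hKn hT le_sup_left
        exact this.conj_mem a2 ha2 s2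
    · rintro ⟨s1, s2⟩ ⟨hs1, _⟩
      obtain ⟨k, hk, m, rfl⟩ := mem_cyc hKn hT s2
      have e : ((s1, k * x ^ m) : W × G) = l ^ m * (h ^ (-m) * s1, x ^ (-m) * k * x ^ m) := by
        rw [hl, Prod.pow_mk, Prod.mk_mul_mk]
        congr 1 <;> group
      rw [e]
      refine Subgroup.mul_mem_sup ?_ ⟨?_, ?_⟩
      · rw [pow_one]
        exact Subgroup.mem_sup_right (Subgroup.zpow_mem_zpowers _ _)
      · exact Subgroup.mul_mem _ (Subgroup.mem_sup_right (Subgroup.zpow_mem_zpowers _ _)) hs1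
      · apply Subgroup.mem_sup_left
        have := hKn.conj_mem k hk (x ^ (-m))
        have e2 : x ^ (-m) * k * (x ^ (-m))⁻¹ = x ^ (-m) * k * x ^ m := by group
        rw [← e2]
        exact this
    · rw [mem_congr_sub F (show EL ⊔ Subgroup.zpowers (l ^ 1) = EL ⊔ Subgroup.zpowers l by
        rw [pow_one])]
      exact hTL
  have hG : F.Mem ((⊤ : Subgroup G).map (MonoidHom.inr W G)) := by
    refine mem_of_normIn hF ⟨?_, ?_⟩ hS
    · rintro _ ⟨g, hg, rfl⟩
      exact ⟨Subgroup.one_mem _, trivial⟩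
    · rintro ⟨s1, s2⟩ _ _ ⟨g, _, rfl⟩
      exact ⟨s2 * g * s2⁻¹, trivial, by simp⟩
  rw [mem_map_iff F _ inr_inj] at hG
  exact (mem_top F).1 hG

end Pool.Agent.Helper403.Fit
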