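import Pool.Agent.Helper403.Fit.Lift

set_option autoImplicit false

namespace Pool.Agent.Helper403.Fit

/-- the classes of the local function -/
def Xp (F : GroupClass) (p : ℕ) : GroupClass where
  Mem K _ _ := ∃ (X : Type) (_ : Group X) (_ : Finite X) (y : X), F.Mem X ∧ PElt p y ∧ y ≠ 1 ∧
    (∀ D : Subgroup X, D.Normal → y ∈ D → D = ⊤) ∧ (FitCl (Op p (⊤ : Subgroup X))).Mem K
  iso := by
    rintro K K' _ _ _ _ e ⟨X, _, _, y, h1, h2, h3, h4, h5⟩
    exact ⟨X, inferInstance, inferInstance, y, h1, h2, h3, h4, (FitCl _).iso e h5⟩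

theorem Xp_fitting {F : GroupClass} (hF : IsFittingClass F) {p : ℕ} (hp : p.Prime) :
    IsFittingClass (Xp F p) where
  normal := by
    rintro G _ _ N hN ⟨X, _, _, y, h1, h2, h3, h4, h5⟩
    exact ⟨X, inferInstance, inferInstance, y, h1, h2, h3, h4,
      (fitCl_fitting _).normal G N hN h5⟩
  mul := by
    rintro G _ _ N₁ N₂ hN1 hN2 ⟨X₁, _, _, y₁, h1, h2, h3, h4, h5⟩ ⟨X₂, _, _, y₂, k1, k2, k3, k4, k5⟩
    set K₁ : Subgroup X₁ := Op p (⊤ : Subgroup X₁) with hK1
    set K₂ : Subgroup X₂ := Op p (⊤ : Subgroup X₂) with hK2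
    have n1 : K₁.Normal := Op_normal inferInstance
    have n2 : K₂.Normal := Op_normal inferInstance
    have t1 : K₁ ⊔ Subgroup.zpowers y₁ = ⊤ := cyc_top hp h4
    have t2 : K₂ ⊔ Subgroup.zpowers y₂ = ⊤ := cyc_top hp k4
    have q1 : K₁ ≤ Op p K₁ := Op_idem _
    have q2 : K₂ ≤ Op p K₂ := Op_idem _
    set E : Subgroup (X₁ × X₂) := K₁.prod K₂ with hE
    have hEn : E.Normal := Subgroup.prod_normal K₁ K₂
    set l : X₁ × X₂ := (y₁, y₂) with hl
    have hlp : PElt p l := by
      obtain ⟨c1, hc1⟩ := h2
      obtain ⟨c2, hc2⟩ := k2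
      refine ⟨c1 + c2, ?_⟩
      rw [hl, Prod.pow_mk, pow_add, pow_mul, hc1, one_pow, mul_comm, pow_mul, hc2, one_pow]
      rfl
    have hgen : ∀ D : Subgroup (X₁ × X₂), l ∈ D →
        (∀ t ∈ E ⊔ Subgroup.zpowers l, ∀ d ∈ D, t * d * t⁻¹ ∈ D) → E ≤ D := by
      intro D hD hn
      rw [hE, prod_eq_sup]
      refine sup_le ?_ ?_
      · rw [Subgroup.map_le_iff_le_comap]
        apply genLeft h2 h4 t1 q1 D hD
        intro k hk d hd
        exact hn (k, 1) (Subgroup.mem_sup_left ⟨hk, K₂.one_mem⟩) d hd
      · rw [Subgroup.map_le_iff_le_comap]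
        apply genRight k2 k4 t2 q2 D hD
        intro k hk d hd
        exact hn (1, k) (Subgroup.mem_sup_left ⟨K₁.one_mem, hk⟩) d hd
    set T : Subgroup (X₁ × X₂) := E ⊔ Subgroup.zpowers l with hT
    have hlT : l ∈ T := Subgroup.mem_sup_right (Subgroup.mem_zpowers l)
    have hTF : F.Mem T := by
      refine mem_of_normIn hF (S := ⊤) ?_ ((mem_top F).2 (mem_prodGroup hF h1 k1))
      have h := normIn_cyc (E := E) (S := ⊤) (l := l) hEn (by
        rintro ⟨v1, v2⟩ _
        exact ⟨comm_mem_cyc n1 t1 y₁ v1, comm_mem_cyc n2 t2 y₂ v2⟩) 1 le_top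
      rw [pow_one] at h
      exact h
    have hinj := T.subtype_injective
    have htop : (⊤ : Subgroup T).map T.subtype = T := by
      rw [← MonoidHom.range_eq_map, Subgroup.range_subtype]
    refine ⟨T, inferInstance, inferInstance, ⟨l, hlT⟩, hTF, PElt.of_map T.subtype hinj hlp,
      ?_, ?_, ?_⟩
    · intro hcon
      apply h3
      have := congrArg Subtype.val hcon
      exact congrArg Prod.fst this
    · intro D hD hlD
      have e1 : E ≤ D.map T.subtype := by
        apply hgen
        · exact ⟨_, hlD, rfl⟩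
        · rintro t ht _ ⟨d, hd, rfl⟩
          exact ⟨⟨t, ht⟩ * d * ⟨t, ht⟩⁻¹, hD.conj_mem d hd _, by simp⟩
      apply Subgroup.map_injective hinj
      rw [htop]
      apply le_antisymm
      · exact Subgroup.map_subtype_le D
      · refine sup_le e1 ?_
        rw [Subgroup.zpowers_le]
        exact ⟨_, hlD, rfl⟩
    · intro Y hY hm
      have hm' : Y.Mem (Op p T) := by
        rw [← mem_map_iff Y T.subtype hinj,
          mem_congr_sub Y (by rw [← Op_map T.subtype hinj, htop])] at hm
        exact hm
      have e1 : Y.Mem (K₁.map (MonoidHom.inl X₁ X₂)) := by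
        refine mem_of_normIn hY ⟨?_, ?_⟩ hm'
        · refine (Subgroup.map_mono q1).trans ?_
          rw [← Op_map _ inl_inj]
          apply Op_mono
          refine le_trans ?_ (le_sup_left : E ≤ T)
          rw [hE, prod_eq_sup]
          exact le_sup_left
        · rintro ⟨s1, s2⟩ _ _ ⟨e, he, rfl⟩
          exact ⟨s1 * e * s1⁻¹, n1.conj_mem e he s1, by simp⟩
      have e2 : Y.Mem (K₂.map (MonoidHom.inr X₁ X₂)) := by
        refine mem_of_normIn hY ⟨?_, ?_⟩ hm'
        · refine (Subgroup.map_mono q2).trans ?_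
          rw [← Op_map _ inr_inj]
          apply Op_mono
          refine le_trans ?_ (le_sup_left : E ≤ T)
          rw [hE, prod_eq_sup]
          exact le_sup_right
        · rintro ⟨s1, s2⟩ _ _ ⟨e, he, rfl⟩
          exact ⟨s2 * e * s2⁻¹, n2.conj_mem e he s2, by simp⟩
      rw [mem_map_iff Y _ inl_inj] at e1
      rw [mem_map_iff Y _ inr_inj] at e2
      exact hY.mul G N₁ N₂ hN1 hN2 (h5 Y hY e1) (k5 Y hY e2)

theorem card_lt_of_ne_top {G : Type} [Group G] [Finite G] {N : Subgroup G} (h : N ≠ ⊤) :
    Nat.card N < Nat.card G := by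
  apply lt_of_le_of_ne (Subgroup.card_le_card_group N)
  intro hc
  exact h (Subgroup.eq_top_of_card_eq N hc)

theorem OO_sub {G : Type} [Group G] (p : ℕ) (N : Subgroup G) :
    (OO p (⊤ : Subgroup N)).map N.subtype = OO p N := by
  rw [← OO_map N.subtype N.subtype_injective, ← MonoidHom.range_eq_map, Subgroup.range_subtype]

theorem mem_OO_sub {G : Type} [Group G] [Finite G] (X : GroupClass) (p : ℕ) (N : Subgroup G) :
    X.Mem (OO p (⊤ : Subgroup N)) ↔ X.Mem (OO p N) := by
  rw [← mem_map_iff X N.subtype N.subtype_injective, mem_congr_sub X (OO_sub p N)]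

/-- `F` is contained in the local class -/
theorem sub_local {F : GroupClass} (hF : IsFittingClass F)
    (hsol : ∀ (G : Type) [Group G] [Finite G], F.Mem G → Group.IsSolvable G)
    {p : ℕ} (hp : p.Prime) : ∀ n : ℕ, ∀ (X : Type) [Group X] [Finite X], Nat.card X = n →
      F.Mem X → (p ∣ Nat.card X → (Xp F p).Nonempty) ∧
        ((Xp F p).Nonempty → (Xp F p).Mem (OO p (⊤ : Subgroup X))) := by
  intro n
  induction n using Nat.strong_induction_on with
  | _ n ih =>
    intro X _ _ hn hX
    rcases trichotomy X with hs | ⟨N₁, N₂, h1, h2, h3, h4, h5⟩ |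
      ⟨q, hq, x, hx1, hxq, hncl, R, hRn, hRt, hRmax⟩
    · refine ⟨?_, ?_⟩
      · intro hd
        rw [Nat.card_unique] at hd
        exact (hp.one_lt.ne' (Nat.dvd_one.1 hd)).elim
      · intro hne
        exact mem_of_subsingleton (Xp_fitting hF hp) hne _
    · have i1 := ih _ (hn ▸ card_lt_of_ne_top h3) N₁ rfl (mem_of_normal hF h1 hX)
      have i2 := ih _ (hn ▸ card_lt_of_ne_top h4) N₂ rfl (mem_of_normal hF h2 hX)
      refine ⟨?_, ?_⟩
      · intro hd
        by_contra hcon
        have c1 : ¬ p ∣ Nat.card N₁ := fun h => hcon (i1.1 h)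
        have c2 : ¬ p ∣ Nat.card N₂ := fun h => hcon (i2.1 h)
        rw [not_dvd_card_iff hp] at c1 c2
        apply (not_dvd_card_iff hp).2 _ hd
        intro g
        apply PPElt.of_hom (QuotientGroup.mk' N₁)
        · have : g ∈ N₁ ⊔ N₂ := by rw [h5]; trivial
          obtain ⟨a, ha, b, hb, rfl⟩ := Subgroup.mem_sup_of_normal_left.1 this
          rw [map_mul, mk'_eq_one.2 ha, one_mul]
          exact ((c2 ⟨b, hb⟩).map N₂.subtype).map _
        · intro z hz
          exact (c1 ⟨z, mk'_eq_one.1 hz⟩).map N₁.subtype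
      · intro hne
        have j1 := (mem_OO_sub (Xp F p) p N₁).1 (i1.2 hne)
        have j2 := (mem_OO_sub (Xp F p) p N₂).1 (i2.2 hne)
        have o1 : (OO p N₁).Normal := OO_normal h1
        have o2 : (OO p N₂).Normal := OO_normal h2
        have j3 := (Xp_fitting hF hp).mul X _ _ o1 o2 j1 j2
        refine mem_of_normIn (Xp_fitting hF hp) (normIn_of_normal (OO_normal inferInstance) ?_) j3
        exact OO_sup hp h1 h2 (Subgroup.sup_normal _ _) h5 le_sup_left le_sup_right
    · by_cases hqp : q = p
      · subst hqp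
        refine ⟨?_, ?_⟩
        · intro _
          exact ⟨_, _, _, X, inferInstance, inferInstance, x, hX, hxq, hx1, hncl,
            fitCl_self _⟩
        · intro _
          have h1 : (Xp F q).Mem (Op q (⊤ : Subgroup X)) :=
            ⟨X, inferInstance, inferInstance, x, hX, hxq, hx1, hncl, fitCl_self _⟩
          refine mem_of_normIn (Xp_fitting hF hp)
            (normIn_of_normal (OO_normal inferInstance) ?_) h1
          exact Op_mono le_top
      · -- all `p`-elements lie in `R`
        have hsX := hsol X hX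
        have hntX : Nontrivial X := ⟨x, 1, hx1⟩
        have hc : commutator X ≤ R :=
          hRmax _ inferInstance (Group.IsSolvable.commutator_lt_top_of_nontrivial X).ne
        have hpR : ∀ g : X, PElt p g → g ∈ R := by
          intro g hg
          apply hc
          rw [← Abelianization.ker_of, MonoidHom.mem_ker]
          have h7 : (Subgroup.zpowers (Abelianization.of x)).comap Abelianization.of = ⊤ := by
            apply hncl
            · exact Subgroup.Normal.comap inferInstance _
            · exact Subgroup.mem_zpowers _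
          have h8 : g ∈ (Subgroup.zpowers (Abelianization.of x)).comap Abelianization.of := by
            rw [h7]; trivial
          obtain ⟨k, hk⟩ := Subgroup.mem_zpowers_iff.1 h8
          have h9 : PElt q (Abelianization.of g) := by
            rw [← hk]
            exact (hxq.map Abelianization.of).zpow k
          obtain ⟨m, hm⟩ := hg.map Abelianization.of
          exact eq_one_of_both h9 ⟨p ^ m, Nat.Coprime.pow_left m
            ((Nat.coprime_primes hp hq).2 (Ne.symm hqp)), hm⟩
        have i1 := ih _ (hn ▸ card_lt_of_ne_top hRt) R rfl (mem_of_normal hF hRn hX)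
        refine ⟨?_, ?_⟩
        · intro hd
          by_contra hcon
          have c1 : ¬ p ∣ Nat.card R := fun h => hcon (i1.1 h)
          rw [not_dvd_card_iff hp] at c1
          apply (not_dvd_card_iff hp).2 _ hd
          intro g
          obtain ⟨a, b, hab, -, -, ha', hb'⟩ := decomp hp g
          have h1 : a = 1 := eq_one_of_both ha' ((c1 ⟨a, hpR a ha'⟩).map R.subtype)
          rw [hab, h1, one_mul]
          exact hb'
        · intro hne
          have j1 := (mem_OO_sub (Xp F p) p R).1 (i1.2 hne)
          have h3 : OO p (⊤ : Subgroup X) = OO p R := by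
            have h4 : Opp p (⊤ : Subgroup X) = Opp p R := by
              apply le_antisymm
              · unfold Opp
                rw [Subgroup.closure_le]
                rintro g ⟨_, hg⟩
                exact mem_Opp (hpR g hg) hg
              · exact Opp_mono le_top
            unfold OO
            rw [h4]
          rw [mem_congr_sub (Xp F p) h3]
          exact j1

/-- the local class is contained in `F` -/
theorem local_sub {F : GroupClass} (hF : IsFittingClass F) (hne : F.Nonempty)
    (hsol : ∀ (G : Type) [Group G] [Finite G], F.Mem G → Group.IsSolvable G)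
    (hsat : IsSaturated F) : ∀ n : ℕ, ∀ (G : Type) [Group G] [Finite G], Nat.card G = n →
      (∀ p : Nat.Primes, (p : ℕ) ∣ Nat.card G → (Xp F p).Nonempty) →
      (∀ p : Nat.Primes, (Xp F p).Nonempty → (Xp F p).Mem (OO (p : ℕ) (⊤ : Subgroup G))) →
      F.Mem G := by
  intro n
  induction n using Nat.strong_induction_on with
  | _ n ih =>
    intro G _ _ hn hπ hO
    have hsub : ∀ N : Subgroup G, N.Normal → N ≠ ⊤ → F.Mem N := by
      intro N hN hNt
      apply ih _ (hn ▸ card_lt_of_ne_top hNt) N rfl
      · intro p hpd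
        exact hπ p (hpd.trans (Subgroup.card_subgroup_dvd_card N))
      · intro p hpne
        rw [mem_OO_sub]
        refine mem_of_normIn (Xp_fitting hF p.2)
          (normIn_of_normal (OO_normal hN) (OO_mono le_top)) (hO p hpne)
    rcases trichotomy G with hs | ⟨N₁, N₂, h1, h2, h3, h4, h5⟩ |
      ⟨p, hp, x, hx1, hxp, hncl, R, hRn, hRt, hRmax⟩
    · exact mem_of_subsingleton hF hne G
    · have h6 := hF.mul G N₁ N₂ h1 h2 (hsub N₁ h1 h3) (hsub N₂ h2 h4)
      rw [mem_congr_sub F h5] at h6
      exact (mem_top F).1 h6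
    · have hpd : p ∣ Nat.card G := by
        by_contra hcon
        exact hx1 (eq_one_of_both hxp ((not_dvd_card_iff hp).1 hcon x))
      have hopp : Opp p (⊤ : Subgroup G) = ⊤ := by
        apply hncl _ (Opp_normal inferInstance)
        exact mem_Opp (Subgroup.mem_top x) hxp
      have h6 := hO ⟨p, hp⟩ (hπ ⟨p, hp⟩ hpd)
      have h7 : (Xp F p).Mem (Op p (⊤ : Subgroup G)) := by
        have e : OO p (⊤ : Subgroup G) = Op p (⊤ : Subgroup G) := by
          unfold OO
          rw [hopp]
        rw [← mem_congr_sub (Xp F p) e]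
        exact h6
      obtain ⟨X, _, _, y, k1, k2, k3, k4, k5⟩ := h7
      have h8 : F.Mem (Op p (⊤ : Subgroup G)) :=
        k5 F hF (mem_of_normal hF (Op_normal inferInstance) k1)
      by_cases hK : Op p (⊤ : Subgroup G) = ⊤
      · rw [mem_congr_sub F hK] at h8
        exact (mem_top F).1 h8
      · have hKn : (Op p (⊤ : Subgroup G)).Normal := Op_normal inferInstance
        have hT := cyc_top hp hncl
        apply lift hF hsol hsat hp hxp hncl _ k1 k2 k3 k4 k5
        apply hsub
        · exact normal_of_ge hKn hT le_sup_left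
        · intro hcon
          apply hK
          apply hncl _ hKn
          have hx : x ∈ Op p (⊤ : Subgroup G) ⊔ Subgroup.zpowers (x ^ p) := by
            rw [hcon]; trivial
          obtain ⟨k, hk, z, hz, hkz⟩ := Subgroup.mem_sup_of_normal_left.1 hx
          obtain ⟨m, rfl⟩ := Subgroup.mem_zpowers_iff.1 hz
          rw [← mk'_eq_one]
          apply eq_one_of_both (hxp.map _)
          have h9 : QuotientGroup.mk' (Op p (⊤ : Subgroup G)) x =
              (QuotientGroup.mk' (Op p (⊤ : Subgroup G)) x) ^ ((p : ℤ) * m) := by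
            conv_lhs => rw [← hkz]
            rw [map_mul, mk'_eq_one.2 hk, one_mul, map_zpow, map_pow, ← zpow_natCast,
              ← zpow_mul]
          set w := QuotientGroup.mk' (Op p (⊤ : Subgroup G)) x with hw
          have h10 : w ^ ((p : ℤ) * m - 1) = 1 := by
            rw [zpow_sub, ← h9, zpow_one, mul_inv_cancel]
          refine ⟨((p : ℤ) * m - 1).natAbs, ?_, ?_⟩
          · apply Nat.Coprime.symm
            rw [Nat.Prime.coprime_iff_not_dvd hp]
            intro hdv
            have h13 : (p : ℤ) ∣ (p : ℤ) * m - 1 := Int.natCast_dvd.2 hdv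
            have h14 : (p : ℤ) ∣ 1 := by
              have := dvd_sub (dvd_mul_right (p : ℤ) m) h13
              simpa using this
            exact hp.one_lt.ne' (by exact_mod_cast Int.eq_one_of_dvd_one (by positivity) h14)
          · rw [← zpow_natCast]
            rcases Int.natAbs_eq ((p : ℤ) * m - 1) with h11 | h11
            · rw [← h11]; exact h10
            · have h12 : (((p : ℤ) * m - 1).natAbs : ℤ) = -((p : ℤ) * m - 1) := by omega
              rw [h12, zpow_neg, h10, inv_one]

/-- Every nonempty soluble saturated Fitting class is local. -/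
theorem main {F : GroupClass} (hF : IsFittingClass F) (hne : F.Nonempty)
    (hsol : ∀ (G : Type) [Group G] [Finite G], F.Mem G → Group.IsSolvable G)
    (hsat : IsSaturated F) : IsLocal F := by
  rw [isLocal_iff]
  refine ⟨hF, fun p => Xp F p, fun p => Xp_fitting hF p.2, ?_⟩
  intro G _ _
  constructor
  · intro hG
    exact ⟨fun p hpd => (sub_local hF hsol p.2 _ G rfl hG).1 hpd,
      fun p hpne => (sub_local hF hsol p.2 _ G rfl hG).2 hpne⟩
  · rintro ⟨h1, h2⟩
    exact local_sub hF hne hsol hsat _ G rfl h1 h2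

end Pool.Agent.Helper403.Fit
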