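import Pool.Agent.Helper403.Fit.Basic

set_option autoImplicit false

namespace Pool.Agent.Helper403.Fit

variable {G H : Type} [Group G] [Group H]

/-- `p`-elements -/
def PElt (p : ℕ) {G : Type} [Group G] (g : G) : Prop := ∃ k : ℕ, g ^ (p ^ k) = 1

/-- `p'`-elements -/
def PPElt (p : ℕ) {G : Type} [Group G] (g : G) : Prop := ∃ m : ℕ, m.Coprime p ∧ g ^ m = 1

theorem PElt.map {p : ℕ} {g : G} (h : PElt p g) (f : G →* H) : PElt p (f g) := by
  obtain ⟨k, hk⟩ := h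
  exact ⟨k, by rw [← map_pow, hk, map_one]⟩

theorem PPElt.map {p : ℕ} {g : G} (h : PPElt p g) (f : G →* H) : PPElt p (f g) := by
  obtain ⟨k, hk, hk2⟩ := h
  exact ⟨k, hk, by rw [← map_pow, hk2, map_one]⟩

theorem PElt.of_map {p : ℕ} {g : G} (f : G →* H) (hf : Function.Injective f)
    (h : PElt p (f g)) : PElt p g := by
  obtain ⟨k, hk⟩ := h
  exact ⟨k, hf (by rw [map_pow, hk, map_one])⟩

theorem PPElt.of_map {p : ℕ} {g : G} (f : G →* H) (hf : Function.Injective f)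
    (h : PPElt p (f g)) : PPElt p g := by
  obtain ⟨k, hk, hk2⟩ := h
  exact ⟨k, hk, hf (by rw [map_pow, hk2, map_one])⟩

theorem eq_one_of_both {p : ℕ} {g : G} (h : PElt p g) (h' : PPElt p g) : g = 1 := by
  obtain ⟨k, hk⟩ := h
  obtain ⟨m, hm, hm2⟩ := h'
  have h1 := orderOf_dvd_of_pow_eq_one hk
  have h2 := orderOf_dvd_of_pow_eq_one hm2
  have h3 : (p ^ k).Coprime m := (Nat.Coprime.pow_left k hm.symm)
  have h4 : orderOf g = 1 := Nat.eq_one_of_dvd_coprimes h3 h1 h2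
  exact orderOf_eq_one_iff.1 h4

theorem PElt.pow {p : ℕ} {g : G} (h : PElt p g) (n : ℕ) : PElt p (g ^ n) := by
  obtain ⟨k, hk⟩ := h
  exact ⟨k, by rw [← pow_mul, mul_comm, pow_mul, hk, one_pow]⟩

theorem PElt.zpow {p : ℕ} {g : G} (h : PElt p g) (n : ℤ) : PElt p (g ^ n) := by
  obtain ⟨k, hk⟩ := h
  refine ⟨k, ?_⟩
  rw [← zpow_natCast, ← zpow_mul, mul_comm, zpow_mul, zpow_natCast, hk, one_zpow]

theorem PElt.conj {p : ℕ} {g : G} (h : PElt p g) (x : G) : PElt p (x * g * x⁻¹) := by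
  have := h.map (MulAut.conj x).toMonoidHom
  simpa using this

theorem PPElt.conj {p : ℕ} {g : G} (h : PPElt p g) (x : G) : PPElt p (x * g * x⁻¹) := by
  have := h.map (MulAut.conj x).toMonoidHom
  simpa using this

/-- extension closure -/
theorem PPElt.of_hom {p : ℕ} {g : G} (f : G →* H) (h : PPElt p (f g))
    (hk : ∀ x, f x = 1 → PPElt p x) : PPElt p g := by
  obtain ⟨m, hm, hm2⟩ := h
  obtain ⟨m', hm', hm2'⟩ := hk (g ^ m) (by rw [map_pow, hm2])
  exact ⟨m * m', Nat.Coprime.mul_left hm hm', by rw [pow_mul, hm2']⟩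

theorem PElt.of_hom {p : ℕ} {g : G} (f : G →* H) (h : PElt p (f g))
    (hk : ∀ x, f x = 1 → PElt p x) : PElt p g := by
  obtain ⟨m, hm⟩ := h
  obtain ⟨m', hm'⟩ := hk (g ^ (p ^ m)) (by rw [map_pow, hm])
  exact ⟨m + m', by rw [pow_add, pow_mul, hm']⟩

/-- the decomposition of an element into a `p`-part and a `p'`-part -/
theorem decomp {p : ℕ} (hp : p.Prime) [Finite G] (g : G) :
    ∃ a b : G, g = a * b ∧ a ∈ Subgroup.zpowers g ∧ b ∈ Subgroup.zpowers g ∧
      PElt p a ∧ PPElt p b := by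
  have hn : orderOf g ≠ 0 := (orderOf_pos g).ne'
  obtain ⟨k, r, hr, hkr⟩ := Nat.exists_eq_pow_mul_and_not_dvd hn p hp.ne_one
  have hc : Nat.Coprime r p := ((Nat.Prime.coprime_iff_not_dvd hp).2 hr).symm
  have hc2 : IsCoprime ((p ^ k : ℕ) : ℤ) (r : ℤ) := by
    rw [Nat.isCoprime_iff_coprime]
    exact Nat.Coprime.pow_left k hc.symm
  obtain ⟨u, v, huv⟩ := hc2
  refine ⟨g ^ (v * r), g ^ (u * (p ^ k : ℕ)), ?_, ?_, ?_, ?_, ?_⟩
  · rw [← zpow_add, add_comm, huv, zpow_one]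
  · exact Subgroup.zpow_mem_zpowers _ _
  · exact Subgroup.zpow_mem_zpowers _ _
  · refine ⟨k, ?_⟩
    rw [← zpow_natCast, ← zpow_mul]
    rw [show (v * (r : ℤ) * ((p ^ k : ℕ) : ℤ)) = ((orderOf g : ℕ) : ℤ) * v by
      rw [hkr]; push_cast; ring]
    rw [zpow_mul, zpow_natCast, pow_orderOf_eq_one, one_zpow]
  · refine ⟨r, hc, ?_⟩
    rw [← zpow_natCast, ← zpow_mul]
    rw [show (u * ((p ^ k : ℕ) : ℤ) * (r : ℤ)) = ((orderOf g : ℕ) : ℤ) * u by
      rw [hkr]; push_cast; ring]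
    rw [zpow_mul, zpow_natCast, pow_orderOf_eq_one, one_zpow]

theorem isPGroup_iff {p : ℕ} : IsPGroup p G ↔ ∀ g : G, PElt p g := Iff.rfl

theorem not_dvd_card_iff {p : ℕ} (hp : p.Prime) [Finite G] :
    ¬ p ∣ Nat.card G ↔ ∀ g : G, PPElt p g := by
  constructor
  · intro h g
    refine ⟨Nat.card G, ((Nat.Prime.coprime_iff_not_dvd hp).2 h).symm, pow_card_eq_one'⟩
  · intro h hd
    have : Fact p.Prime := ⟨hp⟩
    obtain ⟨x, hx⟩ := exists_prime_orderOf_dvd_card' p hd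
    have h1 : PElt p x := ⟨1, by rw [pow_one, ← hx, pow_orderOf_eq_one]⟩
    have h2 := eq_one_of_both h1 (h x)
    rw [h2, orderOf_one] at hx
    exact hp.one_lt.ne hx

/-! ### the operators -/

/-- `O^{p'}(S)`: the subgroup generated by the `p`-elements of `S` -/
def Opp (p : ℕ) (S : Subgroup G) : Subgroup G := Subgroup.closure {g | g ∈ S ∧ PElt p g}

/-- `O^p(S)`: the subgroup generated by the `p'`-elements of `S` -/
def Op (p : ℕ) (S : Subgroup G) : Subgroup G := Subgroup.closure {g | g ∈ S ∧ PPElt p g}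

/-- `O^p(O^{p'}(S))` -/
def OO (p : ℕ) (S : Subgroup G) : Subgroup G := Op p (Opp p S)

theorem Opp_le (p : ℕ) (S : Subgroup G) : Opp p S ≤ S :=
  (Subgroup.closure_le _).2 fun _ h => h.1

theorem Op_le (p : ℕ) (S : Subgroup G) : Op p S ≤ S :=
  (Subgroup.closure_le _).2 fun _ h => h.1

theorem OO_le (p : ℕ) (S : Subgroup G) : OO p S ≤ S := (Op_le p _).trans (Opp_le p S)

theorem mem_Opp {p : ℕ} {S : Subgroup G} {g : G} (h : g ∈ S) (h' : PElt p g) : g ∈ Opp p S :=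
  Subgroup.subset_closure ⟨h, h'⟩

theorem mem_Op {p : ℕ} {S : Subgroup G} {g : G} (h : g ∈ S) (h' : PPElt p g) : g ∈ Op p S :=
  Subgroup.subset_closure ⟨h, h'⟩

theorem Opp_mono {p : ℕ} {S T : Subgroup G} (h : S ≤ T) : Opp p S ≤ Opp p T :=
  Subgroup.closure_mono fun _ hx => ⟨h hx.1, hx.2⟩

theorem Op_mono {p : ℕ} {S T : Subgroup G} (h : S ≤ T) : Op p S ≤ Op p T :=
  Subgroup.closure_mono fun _ hx => ⟨h hx.1, hx.2⟩

theorem OO_mono {p : ℕ} {S T : Subgroup G} (h : S ≤ T) : OO p S ≤ OO p T :=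
  Op_mono (Opp_mono h)

theorem Opp_map {p : ℕ} (f : G →* H) (hf : Function.Injective f) (S : Subgroup G) :
    Opp p (S.map f) = (Opp p S).map f := by
  unfold Opp
  rw [MonoidHom.map_closure]
  congr 1
  ext x
  constructor
  · rintro ⟨⟨y, hy, rfl⟩, hx⟩
    exact ⟨y, ⟨hy, hx.of_map f hf⟩, rfl⟩
  · rintro ⟨y, ⟨hy, hy2⟩, rfl⟩
    exact ⟨⟨y, hy, rfl⟩, hy2.map f⟩

theorem Op_map {p : ℕ} (f : G →* H) (hf : Function.Injective f) (S : Subgroup G) :
    Op p (S.map f) = (Op p S).map f := by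
  unfold Op
  rw [MonoidHom.map_closure]
  congr 1
  ext x
  constructor
  · rintro ⟨⟨y, hy, rfl⟩, hx⟩
    exact ⟨y, ⟨hy, hx.of_map f hf⟩, rfl⟩
  · rintro ⟨y, ⟨hy, hy2⟩, rfl⟩
    exact ⟨⟨y, hy, rfl⟩, hy2.map f⟩

theorem OO_map {p : ℕ} (f : G →* H) (hf : Function.Injective f) (S : Subgroup G) :
    OO p (S.map f) = (OO p S).map f := by
  unfold OO
  rw [Opp_map f hf, Op_map f hf]

theorem conj_closure {A : Set G} {g : G} (h : ∀ a ∈ A, g * a * g⁻¹ ∈ A) {x : G}
    (hx : x ∈ Subgroup.closure A) : g * x * g⁻¹ ∈ Subgroup.closure A := by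
  have : Subgroup.closure A ≤ (Subgroup.closure A).comap (MulAut.conj g).toMonoidHom := by
    rw [Subgroup.closure_le]
    intro a ha
    exact Subgroup.subset_closure (h a ha)
  exact this hx

theorem conj_Opp {p : ℕ} {S : Subgroup G} {g : G} (h : ∀ a ∈ S, g * a * g⁻¹ ∈ S) {x : G}
    (hx : x ∈ Opp p S) : g * x * g⁻¹ ∈ Opp p S :=
  conj_closure (A := {g | g ∈ S ∧ PElt p g}) (fun a ha => ⟨h a ha.1, ha.2.conj g⟩) hx

theorem conj_Op {p : ℕ} {S : Subgroup G} {g : G} (h : ∀ a ∈ S, g * a * g⁻¹ ∈ S) {x : G}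
    (hx : x ∈ Op p S) : g * x * g⁻¹ ∈ Op p S :=
  conj_closure (A := {g | g ∈ S ∧ PPElt p g}) (fun a ha => ⟨h a ha.1, ha.2.conj g⟩) hx

theorem conj_OO {p : ℕ} {S : Subgroup G} {g : G} (h : ∀ a ∈ S, g * a * g⁻¹ ∈ S) {x : G}
    (hx : x ∈ OO p S) : g * x * g⁻¹ ∈ OO p S :=
  conj_Op (fun _ ha => conj_Opp h ha) hx

theorem NormIn.Opp {p : ℕ} {S T : Subgroup G} (h : NormIn S T) : NormIn (Opp p S) T :=
  ⟨(Opp_le p S).trans h.1, fun s hs _ ha => conj_Opp (h.2 s hs) ha⟩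

theorem NormIn.Op {p : ℕ} {S T : Subgroup G} (h : NormIn S T) : NormIn (Op p S) T :=
  ⟨(Op_le p S).trans h.1, fun s hs _ ha => conj_Op (h.2 s hs) ha⟩

theorem NormIn.OO {p : ℕ} {S T : Subgroup G} (h : NormIn S T) : NormIn (OO p S) T :=
  ⟨(OO_le p S).trans h.1, fun s hs _ ha => conj_OO (h.2 s hs) ha⟩

theorem normIn_refl (S : Subgroup G) : NormIn S S :=
  ⟨le_rfl, fun _ hs _ ha => S.mul_mem (S.mul_mem hs ha) (S.inv_mem hs)⟩

theorem normIn_of_normal {N S : Subgroup G} (h : N.Normal) (hS : N ≤ S) : NormIn N S :=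
  ⟨hS, fun s _ a ha => h.conj_mem a ha s⟩

theorem NormIn.normal {N : Subgroup G} (h : NormIn N ⊤) : N.Normal :=
  ⟨fun a ha s => h.2 s trivial a ha⟩

theorem OO_normal {p : ℕ} {S : Subgroup G} (h : S.Normal) : (OO p S).Normal :=
  (normIn_of_normal h le_top).OO.normal

theorem Opp_normal {p : ℕ} {S : Subgroup G} (h : S.Normal) : (Opp p S).Normal :=
  (normIn_of_normal h le_top).Opp.normal

theorem Op_normal {p : ℕ} {S : Subgroup G} (h : S.Normal) : (Op p S).Normal :=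
  (normIn_of_normal h le_top).Op.normal

/-- `S / O^p(S)` is a `p`-group -/
theorem pelt_of_Op {p : ℕ} (hp : p.Prime) [Finite G] {S : Subgroup G} (f : G →* H)
    (h : Op p S ≤ f.ker) {g : G} (hg : g ∈ S) : PElt p (f g) := by
  obtain ⟨a, b, hab, ha, hb, ha', hb'⟩ := decomp hp g
  have h1 : b ∈ Op p S := mem_Op ((Subgroup.zpowers_le.2 hg) hb) hb'
  have h2 : f b = 1 := h h1
  rw [hab, map_mul, h2, mul_one]
  exact ha'.map f

/-- `S / O^{p'}(S)` is a `p'`-group -/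
theorem ppelt_of_Opp {p : ℕ} (hp : p.Prime) [Finite G] {S : Subgroup G} (f : G →* H)
    (h : Opp p S ≤ f.ker) {g : G} (hg : g ∈ S) : PPElt p (f g) := by
  obtain ⟨a, b, hab, ha, hb, ha', hb'⟩ := decomp hp g
  have h1 : a ∈ Opp p S := mem_Opp ((Subgroup.zpowers_le.2 hg) ha) ha'
  have h2 : f a = 1 := h h1
  rw [hab, map_mul, h2, one_mul]
  exact hb'.map f

theorem pGroups_fitting (p : ℕ) : IsFittingClass (pGroups p) where
  normal := fun _ _ _ N _ h => IsPGroup.to_subgroup h N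
  mul := fun _ _ _ _ _ _ _ a1 a2 => IsPGroup.to_sup_of_normal_right a1 a2

theorem pGroups_nonempty (p : ℕ) : (pGroups p).Nonempty :=
  ⟨PUnit, inferInstance, inferInstance, fun g => ⟨0, by simp⟩⟩

theorem mk'_eq_one {N : Subgroup G} [N.Normal] {g : G} : QuotientGroup.mk' N g = 1 ↔ g ∈ N :=
  QuotientGroup.eq_one_iff g

/-- members of `X N_p E_{p'}` -/
theorem mem_prod_iff {X : GroupClass} (hX : IsFittingClass X) {p : ℕ} (hp : p.Prime)
    [Finite G] : (prod X (prod (pGroups p) (pPrimeGroups p))).Mem G ↔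
      X.Nonempty ∧ X.Mem (OO p (⊤ : Subgroup G)) := by
  constructor
  · rintro ⟨hne, _, h3⟩
    refine ⟨hne, ?_⟩
    have h4 := (not_dvd_card_iff hp).1 h3
    have hV : IsPGroup p (rad (pGroups p) (G ⧸ rad X G)) :=
      rad_mem (pGroups_fitting p) (pGroups_nonempty p)
    have h5 : Opp p (⊤ : Subgroup G) ≤
        (rad (pGroups p) (G ⧸ rad X G)).comap (QuotientGroup.mk' (rad X G)) := by
      unfold Opp
      rw [Subgroup.closure_le]
      rintro g ⟨_, hg⟩
      have h6 : PElt p (QuotientGroup.mk' (rad (pGroups p) (G ⧸ rad X G))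
          (QuotientGroup.mk' (rad X G) g)) := (hg.map _).map _
      have h7 := eq_one_of_both h6 (h4 _)
      change QuotientGroup.mk' (rad X G) g ∈ rad (pGroups p) (G ⧸ rad X G)
      exact mk'_eq_one.1 h7
    have h8 : OO p (⊤ : Subgroup G) ≤ rad X G := by
      unfold OO Op
      rw [Subgroup.closure_le]
      rintro g ⟨hg1, hg2⟩
      have h9 := h5 hg1
      have h10 := hV ⟨_, h9⟩
      have h11 : PElt p (QuotientGroup.mk' (rad X G) g) := by
        obtain ⟨k, hk⟩ := h10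
        exact ⟨k, by simpa [Subtype.ext_iff] using hk⟩
      have h12 := eq_one_of_both h11 (hg2.map _)
      exact (mk'_eq_one).1 h12
    exact mem_of_normIn hX (normIn_of_normal (OO_normal inferInstance) h8) (rad_mem hX hne)
  · rintro ⟨hne, h1⟩
    refine ⟨hne, pGroups_nonempty p, ?_⟩
    have h2 : OO p (⊤ : Subgroup G) ≤ rad X G := le_rad (OO_normal inferInstance) h1
    have h3 : (Opp p (⊤ : Subgroup G)).map (QuotientGroup.mk' (rad X G)) ≤
        rad (pGroups p) (G ⧸ rad X G) := by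
      apply le_rad
      · exact (Opp_normal inferInstance).map _ (QuotientGroup.mk'_surjective _)
      · rintro ⟨_, ⟨g, hg, rfl⟩⟩
        have h4 : PElt p (QuotientGroup.mk' (rad X G) g) := by
          apply pelt_of_Op hp (S := Opp p (⊤ : Subgroup G)) _ _ hg
          rw [QuotientGroup.ker_mk']
          exact h2
        obtain ⟨k, hk⟩ := h4
        exact ⟨k, by simpa [Subtype.ext_iff] using hk⟩
    refine (not_dvd_card_iff hp).2 ?_
    intro q
    obtain ⟨q1, rfl⟩ := QuotientGroup.mk'_surjective _ q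
    obtain ⟨g, rfl⟩ := QuotientGroup.mk'_surjective _ q1
    have h5 := ppelt_of_Opp hp (S := (⊤ : Subgroup G))
      ((QuotientGroup.mk' (rad (pGroups p) (G ⧸ rad X G))).comp (QuotientGroup.mk' (rad X G)))
      (by
        intro x hx
        rw [MonoidHom.mem_ker]
        exact (mk'_eq_one).2 (h3 ⟨x, hx, rfl⟩)) (Subgroup.mem_top g)
    exact h5

/-- `O^p O^{p'}` of a product of two normal subgroups -/
theorem OO_sup {p : ℕ} (hp : p.Prime) [Finite G] {N₁ N₂ A : Subgroup G} (h1 : N₁.Normal)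
    (h2 : N₂.Normal) (hA : A.Normal) (h : N₁ ⊔ N₂ = ⊤) (hA1 : OO p N₁ ≤ A)
    (hA2 : OO p N₂ ≤ A) : OO p (⊤ : Subgroup G) ≤ A := by
  have m1 : (Opp p N₁).Normal := Opp_normal h1
  have m2 : (Opp p N₂).Normal := Opp_normal h2
  set C : Subgroup G := A ⊔ Opp p N₁ ⊔ Opp p N₂ with hC
  have hCn : C.Normal := by
    have : (A ⊔ Opp p N₁).Normal := Subgroup.sup_normal _ _
    exact Subgroup.sup_normal _ _
  have c1 : ∀ g ∈ N₁, PPElt p (QuotientGroup.mk' C g) := by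
    intro g hg
    apply ppelt_of_Opp hp (S := N₁) _ _ hg
    rw [QuotientGroup.ker_mk']
    exact le_sup_right.trans le_sup_left
  have c2 : ∀ g ∈ N₂, PPElt p (QuotientGroup.mk' C g) := by
    intro g hg
    apply ppelt_of_Opp hp (S := N₂) _ _ hg
    rw [QuotientGroup.ker_mk']
    exact le_sup_right
  have c3 : ∀ g : G, PPElt p (QuotientGroup.mk' C g) := by
    intro g
    have n1 : (N₁.map (QuotientGroup.mk' C)).Normal := h1.map _ (QuotientGroup.mk'_surjective _)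
    apply PPElt.of_hom (QuotientGroup.mk' (N₁.map (QuotientGroup.mk' C)))
    · have : g ∈ N₁ ⊔ N₂ := by rw [h]; trivial
      obtain ⟨a, ha, b, hb, rfl⟩ := Subgroup.mem_sup_of_normal_right.1 this
      have e : QuotientGroup.mk' (N₁.map (QuotientGroup.mk' C)) (QuotientGroup.mk' C (a * b)) =
          QuotientGroup.mk' (N₁.map (QuotientGroup.mk' C)) (QuotientGroup.mk' C b) := by
        rw [map_mul, map_mul]
        have : QuotientGroup.mk' (N₁.map (QuotientGroup.mk' C)) (QuotientGroup.mk' C a) = 1 :=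
          (mk'_eq_one).2 ⟨a, ha, rfl⟩
        rw [this, one_mul]
      rw [e]
      exact (c2 b hb).map _
    · intro x hx
      obtain ⟨y, hy, rfl⟩ := (mk'_eq_one).1 hx
      exact c1 y hy
  have c4 : Opp p (⊤ : Subgroup G) ≤ C := by
    unfold Opp
    rw [Subgroup.closure_le]
    rintro g ⟨_, hg⟩
    exact (mk'_eq_one).1 (eq_one_of_both (hg.map _) (c3 g))
  have d1 : IsPGroup p ((Opp p N₁).map (QuotientGroup.mk' A)) := by
    rintro ⟨_, ⟨g, hg, rfl⟩⟩
    have h4 : PElt p (QuotientGroup.mk' A g) := by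
      apply pelt_of_Op hp (S := Opp p N₁) _ _ hg
      rw [QuotientGroup.ker_mk']
      exact hA1
    obtain ⟨k, hk⟩ := h4
    exact ⟨k, by simpa [Subtype.ext_iff] using hk⟩
  have d2 : IsPGroup p ((Opp p N₂).map (QuotientGroup.mk' A)) := by
    rintro ⟨_, ⟨g, hg, rfl⟩⟩
    have h4 : PElt p (QuotientGroup.mk' A g) := by
      apply pelt_of_Op hp (S := Opp p N₂) _ _ hg
      rw [QuotientGroup.ker_mk']
      exact hA2
    obtain ⟨k, hk⟩ := h4
    exact ⟨k, by simpa [Subtype.ext_iff] using hk⟩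
  have d3 : ((Opp p N₂).map (QuotientGroup.mk' A)).Normal :=
    m2.map _ (QuotientGroup.mk'_surjective _)
  have d4 := IsPGroup.to_sup_of_normal_right d1 d2
  have d5 : C.map (QuotientGroup.mk' A) ≤
      (Opp p N₁).map (QuotientGroup.mk' A) ⊔ (Opp p N₂).map (QuotientGroup.mk' A) := by
    rw [hC, Subgroup.map_sup, Subgroup.map_sup]
    have : A.map (QuotientGroup.mk' A) = ⊥ := by
      rw [Subgroup.map_eq_bot_iff, QuotientGroup.ker_mk']
    rw [this, bot_sup_eq]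
  unfold OO Op
  rw [Subgroup.closure_le]
  rintro g ⟨hg1, hg2⟩
  have e1 := d5 ⟨g, c4 hg1, rfl⟩
  have e2 := d4 ⟨_, e1⟩
  have e3 : PElt p (QuotientGroup.mk' A g) := by
    obtain ⟨k, hk⟩ := e2
    exact ⟨k, by simpa [Subtype.ext_iff] using hk⟩
  exact (mk'_eq_one).1 (eq_one_of_both e3 (hg2.map _))

end Pool.Agent.Helper403.Fit
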