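import Pool.Agent.Helper403.Fit.Ops

set_option autoImplicit false

namespace Pool.Agent.Helper403.Fit

variable {G H : Type} [Group G] [Group H]

/-- `Fit(A)`: the Fitting class generated by `A` -/
def FitCl (A : Type) [Group A] [Finite A] : GroupClass where
  Mem G _ _ := ∀ X : GroupClass, IsFittingClass X → X.Mem A → X.Mem G
  iso := fun e h X hX hA => X.iso e (h X hX hA)

theorem fitCl_fitting (A : Type) [Group A] [Finite A] : IsFittingClass (FitCl A) where
  normal := fun G _ _ N hN h X hX hA => hX.normal G N hN (h X hX hA)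
  mul := fun G _ _ N₁ N₂ h1 h2 a1 a2 X hX hA =>
    hX.mul G N₁ N₂ h1 h2 (a1 X hX hA) (a2 X hX hA)

theorem fitCl_self (A : Type) [Group A] [Finite A] : (FitCl A).Mem A := fun _ _ h => h

/-- membership in local classes -/
theorem isLocal_iff {F : GroupClass} : IsLocal F ↔
    IsFittingClass F ∧ ∃ h : Nat.Primes → GroupClass, (∀ p, IsFittingClass (h p)) ∧
    ∀ (G : Type) [Group G] [Finite G], F.Mem G ↔
      (∀ p : Nat.Primes, (p : ℕ) ∣ Nat.card G → (h p).Nonempty) ∧
      ∀ p : Nat.Primes, (h p).Nonempty → (h p).Mem (OO (p : ℕ) (⊤ : Subgroup G)) := by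
  unfold IsLocal
  refine and_congr_right fun _ => exists_congr fun h => and_congr_right fun hh => ?_
  refine forall_congr' fun G => forall_congr' fun _ => forall_congr' fun _ => ?_
  have : (∀ p : Nat.Primes, (h p).Nonempty →
        (prod (h p) (prod (pGroups p) (pPrimeGroups p))).Mem G) ↔
      ∀ p : Nat.Primes, (h p).Nonempty → (h p).Mem (OO (p : ℕ) (⊤ : Subgroup G)) := by
    refine forall_congr' fun p => ?_
    constructor
    · intro h1 hne
      exact ((mem_prod_iff (hh p) p.2).1 (h1 hne)).2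
    · intro h1 hne
      exact (mem_prod_iff (hh p) p.2).2 ⟨hne, h1 hne⟩
  rw [this]

/-! ### the subgroup `Psi` -/

theorem lFit_congr_sub [Finite G] {A B : Subgroup G} (h : A = B) : lFit ↥A = lFit ↥B := by
  subst h
  rfl

theorem mem_congr_sub [Finite G] (X : GroupClass) {A B : Subgroup G} (h : A = B) :
    X.Mem ↥A ↔ X.Mem ↥B := by
  subst h
  rfl

theorem psiSet_top (G : Type) [Group G] [Finite G] : (⊤ : Subgroup G) ∈ PsiSet G := by
  refine ⟨inferInstance, ?_⟩
  intro M _
  exact lFit_congr_sub (top_inf_eq M)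

theorem psiSet_inf {G : Type} [Group G] [Finite G] {N₁ N₂ : Subgroup G} (h1 : N₁ ∈ PsiSet G)
    (h2 : N₂ ∈ PsiSet G) : N₁ ⊓ N₂ ∈ PsiSet G := by
  have n1 := h1.1
  have n2 := h2.1
  refine ⟨Subgroup.normal_inf_normal _ _, ?_⟩
  intro M hM
  have h3 : (N₂ ⊓ M).IsSubnormal := (h2.1.isSubnormal).inf hM
  have h4 := h1.2 _ h3
  have h5 := h2.2 _ hM
  rw [← h5, ← h4]
  exact lFit_congr_sub (inf_assoc _ _ _)

/-- `Psi G` is the smallest normal subgroup `N` of `G` such that `lFit (N ∩ M) = lFit M` for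
every subnormal subgroup `M` of `G`. -/
theorem psi_isLeast (G : Type) [Group G] [Finite G] : IsLeast (PsiSet G) (Psi G) := by
  classical
  refine ⟨?_, fun N hN => sInf_le hN⟩
  have hfin : Set.Finite (PsiSet G) := Set.toFinite _
  have key : ∀ s : Finset (Subgroup G), (∀ N ∈ s, N ∈ PsiSet G) → s.inf id ∈ PsiSet G := by
    intro s
    induction s using Finset.induction_on with
    | empty =>
      intro _
      rw [Finset.inf_empty]
      exact psiSet_top G
    | insert a s ha ih =>
      intro h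
      rw [Finset.inf_insert]
      exact psiSet_inf (h a (Finset.mem_insert_self _ _))
        (ih fun N hN => h N (Finset.mem_insert_of_mem hN))
  have h := key hfin.toFinset (fun N hN => (Set.Finite.mem_toFinset _).1 hN)
  have e : hfin.toFinset.inf id = Psi G := by
    unfold Psi
    apply le_antisymm
    · apply le_sInf
      intro b hb
      exact Finset.inf_le (f := id) ((Set.Finite.mem_toFinset _).2 hb)
    · apply Finset.le_inf
      intro b hb
      exact sInf_le ((Set.Finite.mem_toFinset _).1 hb)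
  rw [e] at h
  exact h

theorem lFit_eq_of (A B : Type) [Group A] [Group B] [Finite A] [Finite B]
    (h : ∀ L : GroupClass, IsLocal L → (L.Mem A ↔ L.Mem B)) : lFit A = lFit B := by
  ext K _ _
  constructor
  · intro h1 L hL hB
    exact h1 L hL ((h L hL).2 hB)
  · intro h1 L hL hA
    exact h1 L hL ((h L hL).1 hA)

/-! ### cyclic extensions -/

theorem mem_cyc {E : Subgroup G} {l : G} (hE : E.Normal) (hT : E ⊔ Subgroup.zpowers l = ⊤)
    (t : G) : ∃ e ∈ E, ∃ k : ℤ, e * l ^ k = t := by
  have h : t ∈ E ⊔ Subgroup.zpowers l := by rw [hT]; trivial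
  obtain ⟨e, he, z, hz, rfl⟩ := Subgroup.mem_sup_of_normal_left.1 h
  obtain ⟨k, rfl⟩ := Subgroup.mem_zpowers_iff.1 hz
  exact ⟨e, he, k, rfl⟩

theorem comm_mem_cyc {E : Subgroup G} {l : G} (hE : E.Normal)
    (hT : E ⊔ Subgroup.zpowers l = ⊤) (s t : G) : t * s * t⁻¹ * s⁻¹ ∈ E := by
  rw [← mk'_eq_one]
  obtain ⟨e, he, k, rfl⟩ := mem_cyc hE hT t
  obtain ⟨e', he', k', rfl⟩ := mem_cyc hE hT s
  have h1 := mk'_eq_one.2 he
  have h2 := mk'_eq_one.2 he'
  simp only [map_mul, map_inv, map_zpow, h1, h2, one_mul]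
  group

theorem normal_of_ge {E : Subgroup G} {l : G} (hE : E.Normal)
    (hT : E ⊔ Subgroup.zpowers l = ⊤) {S : Subgroup G} (hS : E ≤ S) : S.Normal := by
  constructor
  intro s hs t
  have h := hS (comm_mem_cyc hE hT s t)
  have : t * s * t⁻¹ = (t * s * t⁻¹ * s⁻¹) * s := by group
  rw [this]
  exact S.mul_mem h hs

theorem pelt_cyc {p : ℕ} {E N : Subgroup G} {l : G} (hE : E.Normal) (hN : N.Normal)
    (hEN : E ≤ N) (hT : E ⊔ Subgroup.zpowers l = ⊤) (hl : PElt p l) (t : G) :
    PElt p (QuotientGroup.mk' N t) := by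
  obtain ⟨e, he, k, rfl⟩ := mem_cyc hE hT t
  have h1 := mk'_eq_one.2 (hEN he)
  rw [map_mul, h1, one_mul]
  exact (hl.zpow k).map _

/-- a `p`-element is a power of its powers with exponent prime to `p` -/
theorem PElt.mem_zpowers_of_coprime {p : ℕ} (hp : p.Prime) {l : G} (hl : PElt p l) {k : ℤ}
    (hk : ¬ (p : ℤ) ∣ k) : l ∈ Subgroup.zpowers (l ^ k) := by
  obtain ⟨a, ha⟩ := hl
  have h1 : IsCoprime (k : ℤ) ((p : ℤ) ^ a) := by
    apply IsCoprime.pow_right
    rw [isCoprime_comm]
    exact (Nat.prime_iff_prime_int.1 hp).coprime_iff_not_dvd.2 hk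
  obtain ⟨u, v, huv⟩ := h1
  refine ⟨u, ?_⟩
  have h2 : l ^ (v * (p : ℤ) ^ a) = 1 := by
    rw [mul_comm, zpow_mul]
    have : l ^ ((p : ℤ) ^ a) = 1 := by
      rw [← ha, ← zpow_natCast]
      push_cast
      rfl
    rw [this, one_zpow]
  calc (l ^ k) ^ u = l ^ (u * k) := by rw [← zpow_mul, mul_comm]
    _ = l ^ (u * k) * l ^ (v * (p : ℤ) ^ a) := by rw [h2, mul_one]
    _ = l := by rw [← zpow_add, huv, zpow_one]

/-- the unique maximal normal subgroup -/
theorem le_max {p : ℕ} (hp : p.Prime) [Finite G] (E : Subgroup G) (l : G) (hE : E.Normal)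
    (hEp : E ≤ Op p E) (hl : PElt p l) (hT : E ⊔ Subgroup.zpowers l = ⊤)
    (hncl : ∀ D : Subgroup G, D.Normal → l ∈ D → D = ⊤) (hsol : Group.IsSolvable E)
    (D : Subgroup G) (hD : D.Normal) (hDt : D ≠ ⊤) : D ≤ E ⊔ Subgroup.zpowers (l ^ p) := by
  by_contra hcon
  obtain ⟨d, hd, hd2⟩ := Set.not_subset.1 hcon
  obtain ⟨e, he, k, rfl⟩ := mem_cyc hE hT d
  have hk : ¬ (p : ℤ) ∣ k := by
    rintro ⟨m, rfl⟩
    apply hd2
    refine Subgroup.mul_mem_sup he ?_
    refine ⟨m, ?_⟩
    simp only
    rw [← zpow_natCast, ← zpow_mul]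
  have h1 : l ∈ Subgroup.zpowers (l ^ k) := hl.mem_zpowers_of_coprime hp hk
  have h2 : l ^ k ∈ E ⊔ D := by
    have : l ^ k = e⁻¹ * (e * l ^ k) := by group
    rw [this]
    exact Subgroup.mul_mem_sup (E.inv_mem he) hd
  have h3 : E ⊔ D = ⊤ := by
    rw [eq_top_iff, ← hT]
    refine sup_le le_sup_left ?_
    rw [Subgroup.zpowers_le]
    exact (Subgroup.zpowers_le.2 h2) h1
  have h4 : Group.IsSolvable (G ⧸ D) := by
    have hs : Function.Surjective ((QuotientGroup.mk' D).comp E.subtype) := by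
      intro q
      obtain ⟨g, rfl⟩ := QuotientGroup.mk'_surjective D q
      have : g ∈ E ⊔ D := by rw [h3]; trivial
      obtain ⟨a, ha, b, hb, rfl⟩ := Subgroup.mem_sup_of_normal_left.1 this
      refine ⟨⟨a, ha⟩, ?_⟩
      rw [map_mul, mk'_eq_one.2 hb, mul_one]
      rfl
    exact Group.isSolvable_of_surjective hs
  have h5 : Nontrivial (G ⧸ D) := by
    rw [QuotientGroup.nontrivial_iff]
    exact hDt
  have h6 : commutator (G ⧸ D) < ⊤ := Group.IsSolvable.commutator_lt_top_of_nontrivial (G ⧸ D)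
  set φ : G →* Abelianization (G ⧸ D) :=
    (Abelianization.of).comp (QuotientGroup.mk' D) with hφ
  have h7 : (Subgroup.zpowers (φ l)).comap φ = ⊤ := by
    apply hncl
    · exact Subgroup.Normal.comap inferInstance φ
    · exact Subgroup.mem_zpowers _
  have h8 : ∀ g : G, PElt p (φ g) := by
    intro g
    have : g ∈ (Subgroup.zpowers (φ l)).comap φ := by rw [h7]; trivial
    obtain ⟨k, hk⟩ := Subgroup.mem_zpowers_iff.1 this
    rw [← hk]
    exact (hl.map φ).zpow k
  have h9 : E ≤ φ.ker := by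
    refine hEp.trans ?_
    unfold Op
    rw [Subgroup.closure_le]
    rintro g ⟨_, hg⟩
    exact eq_one_of_both (h8 g) (hg.map φ)
  have h10 : D ≤ φ.ker := by
    intro x hx
    rw [MonoidHom.mem_ker, hφ, MonoidHom.comp_apply, mk'_eq_one.2 hx, map_one]
  have h11 : φ.ker = ⊤ := by
    rw [eq_top_iff, ← h3]
    exact sup_le h9 h10
  apply h6.ne
  rw [eq_top_iff]
  intro q _
  obtain ⟨g, rfl⟩ := QuotientGroup.mk'_surjective D q
  have h12 : g ∈ φ.ker := by rw [h11]; trivial
  rw [MonoidHom.mem_ker, hφ, MonoidHom.comp_apply] at h12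
  rw [← Abelianization.ker_of]
  exact h12

/-- The key step: `G` has the unique maximal normal subgroup `R = E⟨l^p⟩` and
`lFit R = lFit G`. -/
theorem step {F : GroupClass} (hF : IsFittingClass F)
    (hsol : ∀ (G : Type) [Group G] [Finite G], F.Mem G → Group.IsSolvable G)
    (hsat : IsSaturated F) {p : ℕ} (hp : p.Prime) [Finite G] (E : Subgroup G) (l : G)
    (hE : E.Normal) (hEp : E ≤ Op p E) (hl : PElt p l) (hT : E ⊔ Subgroup.zpowers l = ⊤)
    (hncl : ∀ D : Subgroup G, D.Normal → l ∈ D → D = ⊤)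
    (hR : F.Mem (E ⊔ Subgroup.zpowers (l ^ p) : Subgroup G))
    (hz : ∃ z ∈ E ⊔ Subgroup.zpowers (l ^ p), z ≠ 1 ∧ PElt p z)
    (h5 : ∀ X : GroupClass, IsFittingClass X →
      X.Mem (OO p (E ⊔ Subgroup.zpowers (l ^ p))) → X.Mem E) : F.Mem G := by
  set R : Subgroup G := E ⊔ Subgroup.zpowers (l ^ p) with hRdef
  have hER : E ≤ R := le_sup_left
  have hRn : R.Normal := normal_of_ge hE hT hER
  have hsE : Group.IsSolvable E := by
    have h1 := hsol R hR
    exact Group.isSolvable_of_isSolvable_injective (Subgroup.inclusion_injective hER)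
  have hmax : ∀ D : Subgroup G, D.Normal → D ≠ ⊤ → D ≤ R := fun D hD hDt =>
    le_max hp E l hE hEp hl hT hncl hsE D hD hDt
  have hq : ∀ g : G, PElt p (QuotientGroup.mk' R g) := pelt_cyc hE hRn hER hT hl
  have hloc : ∀ L : GroupClass, IsLocal L → (L.Mem R ↔ L.Mem G) := by
    intro L hL
    constructor
    · intro hLR
      obtain ⟨hLf, h, hh, hmem⟩ := isLocal_iff.1 hL
      obtain ⟨m1, m2⟩ := (hmem R).1 hLR
      have hcard : ∀ q : Nat.Primes, (q : ℕ) ∣ Nat.card G → (h q).Nonempty := by
        intro q hqd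
        apply m1
        by_cases hqp : (q : ℕ) = p
        · by_contra hcon
          obtain ⟨z, hz1, hz2, hz3⟩ := hz
          rw [hqp] at hcon
          have := (not_dvd_card_iff hp).1 hcon ⟨z, hz1⟩
          apply hz2
          exact eq_one_of_both hz3 (this.map R.subtype)
        · rw [Subgroup.card_eq_card_quotient_mul_card_subgroup R] at hqd
          rcases (Nat.Prime.dvd_mul q.2).1 hqd with h1 | h1
          · exfalso
            have : Fact p.Prime := ⟨hp⟩
            have hpg : IsPGroup p (G ⧸ R) := by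
              intro x
              obtain ⟨g, rfl⟩ := QuotientGroup.mk'_surjective R x
              exact hq g
            obtain ⟨n, hn⟩ := IsPGroup.iff_card.1 hpg
            rw [hn] at h1
            exact hqp ((Nat.prime_dvd_prime_iff_eq q.2 hp).1 (q.2.dvd_of_dvd_pow h1))
          · exact h1
      refine (hmem G).2 ⟨hcard, ?_⟩
      intro q hqne
      have h1 : (h q).Mem (OO (q : ℕ) R) := by
        have h2 := m2 q hqne
        rw [← mem_map_iff (h q) R.subtype R.subtype_injective,
          ← OO_map R.subtype R.subtype_injective] at h2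
        have : (⊤ : Subgroup R).map R.subtype = R := by
          rw [← MonoidHom.range_eq_map, Subgroup.range_subtype]
        rw [this] at h2
        exact h2
      by_cases hqp : (q : ℕ) = p
      · rw [hqp] at h1 ⊢
        have h2 := h5 (h q) (hh q) h1
        have h3 : OO p (⊤ : Subgroup G) ≤ E := by
          unfold OO Op
          rw [Subgroup.closure_le]
          rintro g ⟨_, hg⟩
          exact mk'_eq_one.1 (eq_one_of_both (pelt_cyc hE hE le_rfl hT hl g) (hg.map _))
        exact mem_of_normIn (hh q) (normIn_of_normal (OO_normal inferInstance) h3) h2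
      · have h3 : OO (q : ℕ) (⊤ : Subgroup G) = OO (q : ℕ) R := by
          have h4 : Opp (q : ℕ) (⊤ : Subgroup G) = Opp (q : ℕ) R := by
            apply le_antisymm
            · unfold Opp
              rw [Subgroup.closure_le]
              rintro g ⟨_, hg⟩
              have h6 : PPElt p (QuotientGroup.mk' R g) := by
                obtain ⟨k, hk⟩ := hg.map (QuotientGroup.mk' R)
                exact ⟨(q : ℕ) ^ k, Nat.Coprime.pow_left k
                  ((Nat.coprime_primes q.2 hp).2 hqp), hk⟩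
              exact mem_Opp (mk'_eq_one.1 (eq_one_of_both (hq g) h6)) hg
            · exact Opp_mono le_top
          unfold OO
          rw [h4]
        rw [h3]
        exact h1
    · intro hLG
      exact hL.1.normal G R hRn hLG
  have hRpsi : R ∈ PsiSet G := by
    refine ⟨hRn, ?_⟩
    intro M hM
    by_cases hMt : M = ⊤
    · subst hMt
      apply lFit_eq_of
      intro L hL
      rw [mem_congr_sub L (inf_top_eq R), hloc L hL]
      exact (mem_top L).symm
    · obtain ⟨K, hK, hMK, hKt⟩ :=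
        hM.exists_normal_and_le_and_lt_top_of_ne hMt
      have hMR : M ≤ R := hMK.trans (hmax K hK hKt.ne)
      exact lFit_congr_sub (inf_eq_right.2 hMR)
  have hle : Psi G ≤ R := (psi_isLeast G).2 hRpsi
  have hn : (Psi G).Normal := (psi_isLeast G).1.1
  exact hsat G (mem_of_normIn hF (normIn_of_normal hn hle) hR)

end Pool.Agent.Helper403.Fit
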