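import Pool.Agent.Helper403.Fit.Cyc

set_option autoImplicit false

namespace Pool.Agent.Helper403.Fit

open RegularWreathProduct

variable {X : Type} [Group X]

abbrev Q (n : ℕ) : Type := Multiplicative (ZMod n)

/-- the base group embedding -/
def baseHom (X : Type) [Group X] (n : ℕ) : (Q n → X) →* RegularWreathProduct X (Q n) where
  toFun f := ⟨f, 1⟩
  map_one' := rfl
  map_mul' f g := by
    ext x <;> simp

theorem baseHom_injective (n : ℕ) : Function.Injective (baseHom X n) := by
  intro f g h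
  exact congrArg RegularWreathProduct.left h

/-- the element `(y, 1, ..., 1) σ` -/
noncomputable def hElt (n : ℕ) (y : X) : RegularWreathProduct X (Q n) := by
  classical
  exact ⟨Pi.mulSingle 1 y, Multiplicative.ofAdd 1⟩

theorem hElt_pow {n : ℕ} [NeZero n] (y : X) (k : ℕ) (hk : k ≤ n) :
    (hElt n y) ^ k = (⟨fun x => if (Multiplicative.toAdd x).val < k then y else 1,
      Multiplicative.ofAdd (k : ZMod n)⟩ : RegularWreathProduct X (Q n)) := by
  classical
  induction k with
  | zero =>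
    rw [pow_zero]
    ext x <;> simp
  | succ k ih =>
    rw [pow_succ, ih (by omega)]
    have hkn : k < n := by omega
    ext x
    · simp only [hElt, RegularWreathProduct.mul_left, Pi.mul_apply]
      have hx : (Multiplicative.ofAdd (k : ZMod n))⁻¹ * x = 1 ↔
          (Multiplicative.toAdd x).val = k := by
        rw [inv_mul_eq_one]
        constructor
        · intro h
          rw [← h]
          simp [ZMod.val_natCast, Nat.mod_eq_of_lt hkn]
        · intro h
          apply Multiplicative.toAdd.injective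
          rw [toAdd_ofAdd, ← h, ZMod.natCast_val, ZMod.cast_id', id]
      by_cases h1 : (Multiplicative.toAdd x).val < k
      · have h2 : ¬ (Multiplicative.ofAdd (k : ZMod n))⁻¹ * x = 1 := by
          rw [hx]; omega
        rw [if_pos h1, if_pos (by omega), Pi.mulSingle_eq_of_ne h2, mul_one]
      · rw [if_neg h1]
        by_cases h3 : (Multiplicative.toAdd x).val = k
        · rw [if_pos (by omega), hx.2 h3, Pi.mulSingle_eq_same, one_mul]
        · have h2 : ¬ (Multiplicative.ofAdd (k : ZMod n))⁻¹ * x = 1 := by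
            rw [hx]; exact h3
          rw [if_neg (by omega), Pi.mulSingle_eq_of_ne h2, one_mul]
    · simp only [hElt, RegularWreathProduct.mul_right]
      rw [← ofAdd_add]
      push_cast
      rfl

theorem hElt_pow_n {n : ℕ} [NeZero n] (y : X) : (hElt n y) ^ n = baseHom X n (fun _ => y) := by
  rw [hElt_pow y n le_rfl]
  ext x
  · simp only [baseHom, MonoidHom.coe_mk, OneHom.coe_mk]
    rw [if_pos (ZMod.val_lt _)]
  · simp [baseHom]

/-- the subgroup `K^n` of the base group -/
def E0 (n : ℕ) (K : Subgroup X) : Subgroup (Q n → X) := Subgroup.pi Set.univ (fun _ => K)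

theorem E0_le_Op {n : ℕ} [NeZero n] {p : ℕ} {K : Subgroup X} (hK : K ≤ Op p K) :
    E0 n K ≤ Op p (E0 n K) := by
  classical
  conv_lhs => unfold E0
  rw [Subgroup.pi_le_iff]
  intro i
  refine (Subgroup.map_mono hK).trans ?_
  rw [← Op_map _ (by
    intro a b hab
    simpa [MonoidHom.mulSingle_apply] using hab)]
  apply Op_mono
  rintro _ ⟨a, ha, rfl⟩
  rw [E0, Subgroup.mem_pi]
  intro j _
  rw [MonoidHom.mulSingle_apply]
  by_cases hj : j = i
  · subst hj
    rw [Pi.mulSingle_eq_same]
    exact ha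
  · rw [Pi.mulSingle_eq_of_ne hj]
    exact K.one_mem

theorem mem_E0 {n : ℕ} {K : Subgroup X} {f : Q n → X} : f ∈ E0 n K ↔ ∀ i, f i ∈ K := by
  simp [E0, Subgroup.mem_pi]

theorem mulSingle_mem_E0 {n : ℕ} [DecidableEq (Q n)] {K : Subgroup X} {a : X} (ha : a ∈ K)
    (i : Q n) : (Pi.mulSingle i a : Q n → X) ∈ E0 n K := by
  rw [mem_E0]
  intro j
  by_cases hj : j = i
  · subst hj
    rw [Pi.mulSingle_eq_same]
    exact ha
  · rw [Pi.mulSingle_eq_of_ne hj]
    exact K.one_mem

/-- the generation property in the base group -/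
theorem E0_gen {n : ℕ} [NeZero n] {p : ℕ} [Finite X] {K : Subgroup X} {y : X}
    (hy : PElt p y) (hncl : ∀ D : Subgroup X, D.Normal → y ∈ D → D = ⊤)
    (hT : K ⊔ Subgroup.zpowers y = ⊤) (hKp : K ≤ Op p K) :
    E0 n K ≤ Subgroup.closure {g : Q n → X | ∃ e ∈ E0 n K, g = e * (fun _ => y) * e⁻¹} := by
  classical
  set D := Subgroup.closure {g : Q n → X | ∃ e ∈ E0 n K, g = e * (fun _ => y) * e⁻¹} with hD
  have hz : (fun _ => y : Q n → X) ∈ D :=
    Subgroup.subset_closure ⟨1, (E0 n K).one_mem, by simp⟩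
  have hconj : ∀ e ∈ E0 n K, ∀ d ∈ D, e * d * e⁻¹ ∈ D := by
    intro e he d hd
    refine conj_closure ?_ hd
    rintro _ ⟨e', he', rfl⟩
    exact ⟨e * e', (E0 n K).mul_mem he he', by group⟩
  conv_lhs => unfold E0
  rw [Subgroup.pi_le_iff]
  intro i
  rw [Subgroup.map_le_iff_le_comap]
  apply lemmaC hy hncl hT hKp
  · intro k hk m hm
    rw [Subgroup.mem_comap] at hm ⊢
    rw [map_mul, map_mul, map_inv]
    apply hconj _ _ _ hm
    rw [MonoidHom.mulSingle_apply]
    exact mulSingle_mem_E0 hk i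
  · intro m hm
    rw [Subgroup.mem_comap] at hm ⊢
    have e : MonoidHom.mulSingle (fun _ : Q n => X) i (y * m * y⁻¹) =
        (fun _ => y) * MonoidHom.mulSingle (fun _ : Q n => X) i m * (fun _ => y)⁻¹ := by
      funext j
      simp only [MonoidHom.mulSingle_apply, Pi.mul_apply, Pi.inv_apply]
      by_cases hj : j = i
      · subst hj
        simp
      · simp [Pi.mulSingle_eq_of_ne hj]
    rw [e]
    exact D.mul_mem (D.mul_mem hz hm) (D.inv_mem hz)
  · intro k hk
    rw [Subgroup.mem_comap]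
    have e : MonoidHom.mulSingle (fun _ : Q n => X) i (k * y * k⁻¹ * y⁻¹) =
        (MonoidHom.mulSingle (fun _ : Q n => X) i k * (fun _ => y) *
          (MonoidHom.mulSingle (fun _ : Q n => X) i k)⁻¹) * (fun _ => y)⁻¹ := by
      funext j
      simp only [MonoidHom.mulSingle_apply, Pi.mul_apply, Pi.inv_apply]
      by_cases hj : j = i
      · subst hj
        simp
      · simp [Pi.mulSingle_eq_of_ne hj]
    rw [e]
    refine D.mul_mem (Subgroup.subset_closure ⟨_, ?_, rfl⟩) (D.inv_mem hz)
    rw [MonoidHom.mulSingle_apply]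
    exact mulSingle_mem_E0 hk i

/-- The root construction: existence of `H = E⟨h⟩` in `F` with a large power of `h` still
acting in the right way. -/
theorem root {F : GroupClass} (hF : IsFittingClass F)
    (hsol : ∀ (G : Type) [Group G] [Finite G], F.Mem G → Group.IsSolvable G)
    (hsat : IsSaturated F) {p : ℕ} (hp : p.Prime) [Finite X] {y : X} (hFX : F.Mem X)
    (hy : PElt p y) (hy1 : y ≠ 1) (hncl : ∀ D : Subgroup X, D.Normal → y ∈ D → D = ⊤)
    (b : ℕ) :
    ∃ (W : Type) (_ : Group W) (_ : Finite W) (E : Subgroup W) (h : W), E.Normal ∧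
      E ≤ Op p E ∧ PElt p h ∧ h ^ (p ^ b) ≠ 1 ∧
      E ≤ Subgroup.closure {g | ∃ e ∈ E, g = e * h ^ (p ^ b) * e⁻¹} ∧
      F.Mem (E ⊔ Subgroup.zpowers h : Subgroup W) ∧
      ∀ Y : GroupClass, IsFittingClass Y → Y.Mem E → Y.Mem (Op p (⊤ : Subgroup X)) := by
  classical
  set n := p ^ b with hn
  have hn0 : NeZero n := ⟨(pow_pos hp.pos b).ne'⟩
  set K : Subgroup X := Op p (⊤ : Subgroup X) with hK
  have hKn : K.Normal := Op_normal inferInstance
  have hKp : K ≤ Op p K := Op_idem _
  have hT : K ⊔ Subgroup.zpowers y = ⊤ := cyc_top hp hncl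
  have hinj := baseHom_injective (X := X) n
  have hfinW : Finite (RegularWreathProduct X (Q n)) := inferInstance
  set E : Subgroup (RegularWreathProduct X (Q n)) := (E0 n K).map (baseHom X n) with hE
  set h : RegularWreathProduct X (Q n) := hElt n y with hh
  have hpow : h ^ n = baseHom X n (fun _ => y) := hElt_pow_n y
  have hEn : E.Normal := by
    constructor
    rintro _ ⟨f, hf, rfl⟩ w
    refine ⟨fun x => w.left x * f (w.right⁻¹ * x) * (w.left x)⁻¹, ?_, ?_⟩
    · have hf' := mem_E0.1 hf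
      exact mem_E0.2 fun i => hKn.conj_mem _ (hf' _) _
    · ext x
      · simp [baseHom]
      · simp [baseHom]
  have hEp : E ≤ Op p E := by
    rw [hE, Op_map _ hinj]
    exact Subgroup.map_mono (E0_le_Op hKp)
  have hhp : PElt p h := by
    obtain ⟨c, hc⟩ := hy
    refine ⟨b + c, ?_⟩
    rw [pow_add, pow_mul, ← hn, hpow, ← map_pow]
    have : ((fun _ => y : Q n → X) ^ p ^ c) = 1 := by
      funext x
      simp [hc]
    rw [this, map_one]
  have hne : h ^ n ≠ 1 := by
    rw [hpow]
    intro hcon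
    have h1 := hinj (hcon.trans (map_one (baseHom X n)).symm)
    exact hy1 (congrFun h1 1)
  have hgen : E ≤ Subgroup.closure {g | ∃ e ∈ E, g = e * h ^ n * e⁻¹} := by
    rw [hE]
    refine (Subgroup.map_mono (E0_gen hy hncl hT hKp)).trans ?_
    rw [MonoidHom.map_closure]
    apply Subgroup.closure_mono
    rintro _ ⟨_, ⟨e, he, rfl⟩, rfl⟩
    refine ⟨baseHom X n e, ⟨e, he, rfl⟩, ?_⟩
    rw [hpow, map_mul, map_mul, map_inv]
  have hbase : F.Mem (E ⊔ Subgroup.zpowers (h ^ n) : Subgroup _) := by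
    have e1 : E ⊔ Subgroup.zpowers (h ^ n) =
        (E0 n K ⊔ Subgroup.zpowers (fun _ => y : Q n → X)).map (baseHom X n) := by
      rw [Subgroup.map_sup, MonoidHom.map_zpowers, hpow]
    rw [mem_congr_sub F e1, mem_map_iff F _ hinj]
    apply mem_of_normal hF _ (mem_pi hF hFX)
    have hE0n : (E0 n K).Normal := by
      constructor
      intro f hf w
      exact mem_E0.2 fun i => hKn.conj_mem _ (mem_E0.1 hf i) _
    apply (NormIn.normal (N := E0 n K ⊔ Subgroup.zpowers (fun _ => y : Q n → X)))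
    refine ⟨le_top, ?_⟩
    intro s _ a ha
    obtain ⟨e, he, z, hz, rfl⟩ := Subgroup.mem_sup_of_normal_left.1 ha
    obtain ⟨m, rfl⟩ := Subgroup.mem_zpowers_iff.1 hz
    have e2 : s * (e * (fun _ => y : Q n → X) ^ m) * s⁻¹ =
        (s * e * s⁻¹) * (s * (fun _ => y : Q n → X) ^ m * s⁻¹ *
          ((fun _ => y : Q n → X) ^ m)⁻¹) * (fun _ => y : Q n → X) ^ m := by group
    rw [e2]
    refine Subgroup.mul_mem _ (Subgroup.mul_mem _ ?_ ?_) ?_
    · exact Subgroup.mem_sup_left (hE0n.conj_mem e he s)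
    · apply Subgroup.mem_sup_left
      rw [mem_E0]
      intro i
      exact comm_mem_cyc hKn hT (y ^ m) (s i)
    · exact Subgroup.mem_sup_right (Subgroup.zpow_mem_zpowers _ _)
  refine ⟨RegularWreathProduct X (Q n), inferInstance, hfinW, E, h, hEn, hEp, hhp, hne, hgen,
    chain hF hsol hsat hp E hEn hEp b h hhp hne hgen hbase, ?_⟩
  intro Y hY hYE
  rw [hE, mem_map_iff Y _ hinj] at hYE
  have h1 : Y.Mem (K.map (MonoidHom.mulSingle (fun _ : Q n => X) 1)) := by
    refine mem_of_normIn hY (S := E0 n K) ⟨?_, ?_⟩ hYE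
    · rintro _ ⟨a, ha, rfl⟩
      rw [MonoidHom.mulSingle_apply]
      exact mulSingle_mem_E0 ha 1
    · rintro s hs _ ⟨a, ha, rfl⟩
      refine ⟨s 1 * a * (s 1)⁻¹, hKn.conj_mem a ha _, ?_⟩
      funext j
      simp only [MonoidHom.mulSingle_apply, Pi.mul_apply, Pi.inv_apply]
      by_cases hj : j = 1
      · subst hj
        simp
      · simp [Pi.mulSingle_eq_of_ne hj]
  rwa [mem_map_iff Y _ (by
    intro a b hab
    simpa [MonoidHom.mulSingle_apply] using hab)] at h1

end Pool.Agent.Helper403.Fit
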